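import Pool.Agent.GAP.Alph
import Pool.Agent.HEP.RnSeq
import Pool.Agent.HEP.RnCut

/-!
Project PLF (MP_8c6f77_pr, honeycomb lattice; abstract half of the project GAP, architect helper78): THE FOLD ESTIMATE.
Everything is a statement about a system `S : Sys` with `S.Gyp K` (GAP/Alph) and `S.Reg κ` (regularity of the renewal function, from the
exponent of the bridges). OUTPUT: `PLF/F0.lean`: mass of the chains of strands at most `exp (C (1 + log n) ^ A)`.

* `FP k l`: the word `l` is in first passage over the height `k` (`k ≤ h l`, all the proper prefixes have height `< k`). `FP 0 l` means `l = []`.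
  `pre k X`: the part of `X` up to its first renewal `≥ k`.
* `gp σ l s`: the long leg `l` and the short leg `s` do not meet, `h s ≤ h l - d σ`, and `l` is one-sided (gap at least 1) at the end of EVERY
  prefix of the short leg `s` (so that this property is inherited by the prefixes of `s` without further geometry; all the pairs in which the
  short leg can be continued above the long one have it, by `Gyp.pl1`, `Gyp.pl2`). `gp` implies `good σ 1` (take the prefix `s` itself).
* `mt σ q N`: mass of the pairs `gp` with `h s = q`, `l` in first passage over `q + d σ` and `h l > N`. (`fp σ q l` of GAP/Alph is `FP (q + d σ) l` for `q ≥ 1`.)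
  `m2 q N` = both sides. `Vp M = ∑_(q ≤ M) m2 q 0` (the term `q = 0` is at most 1).
* `LP j = ∑_(r ≤ j) m2 r j * Lam (j - r)`: the lower pairs at the threshold `j`.
* `bm σ g m M`: mass of the pairs with gap `< g` and `m < h s ≤ M`.
-/

namespace Pool.Agent.HEP

open scoped ENNReal
open Finset

namespace Alph

variable (A : Alph)

/-- `l` is in first passage over the height `k`. -/
def FP (k : ℕ) (l : List A.B) : Prop := k ≤ A.h l ∧ ∀ l' c r, l = l' ++ c :: r → A.h l' < k

/-- The part of a word up to its first renewal `≥ k`. -/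
def pre : ℕ → List A.B → List A.B
  | _, [] => []
  | k, c :: l => if k = 0 then [] else c :: pre (k - A.ht c) l

end Alph

namespace Sys

variable (S : Sys)

/-- Pairs (long leg `l`, short leg `s`) which do not meet and are one-sided at every renewal of the short leg. -/
def gp (σ : Bool) (l s : List S.B) : Prop :=
  S.av σ l s ∧ S.h s ≤ S.h l - d σ ∧ ∀ s' r, s = s' ++ r → S.os σ 1 l s'

/-- Mass of the pairs of level `q` whose long leg, in first passage, has height `> N`. -/
noncomputable def mt (σ : Bool) (q N : ℕ) : ℝ≥0∞ :=
  ∑' l, ∑' s, ind (S.gp σ l s ∧ S.FP (q + d σ) l ∧ S.h s = q ∧ N < S.h l) * (S.w l * S.w s)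

/-- Both sides. -/
noncomputable def m2 (q N : ℕ) : ℝ≥0∞ := S.mt true q N + S.mt false q N

/-- The function `V` of the fold estimate. -/
noncomputable def Vp (M : ℕ) : ℝ≥0∞ := ∑ q ∈ range (M + 1), S.m2 q 0

/-- The lower pairs at the threshold `j`. -/
noncomputable def LP (j : ℕ) : ℝ≥0∞ := ∑ r ∈ range (j + 1), S.m2 r j * S.Lam (j - r)

/-- Mass of the pairs with gap `< g`, short leg of height in `(m, M]`. -/
noncomputable def bm (σ : Bool) (g m M : ℕ) : ℝ≥0∞ :=
  ∑' s, ∑' l, ind (S.gp σ l s ∧ ¬ S.os σ g l s ∧ S.FP (S.h s + d σ) l ∧ m < S.h s ∧ S.h s ≤ M) * (S.w l * S.w s)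

/-- Regularity of the renewal function. -/
def Reg (κ : ℕ) : Prop := ∀ N, 1 ≤ N → S.U N ≤ κ * N * S.b N

end Sys

end Pool.Agent.HEP
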