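import Pool.Agent.PLF.Defs

/-!
Project PLF, module Pre: FIRST PASSAGE of words (renewal bookkeeping, no geometry).

PAPER PROOFS.
* `FP_nil`, `FP_zero`: `FP 0 l` : no proper prefix may exist (its height would be `< 0`), so `l = []`.
* `FP_cons`: the proper prefixes of `c :: l` are `[]` (height 0) and `c :: l'`, `l'` a proper prefix of `l`. If `ht c ≥ k` then `k - ht c = 0` and `l = []`.
* `FP_snoc`: the proper prefixes of `l ++ [c]` are `l` and its prefixes (heights are monotone).
* `FP_append`: induction on `l` with `FP_cons` (`k - ht c ≤ k' - ht c`), or directly.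
* `pre_app`: induction on `l` (with `FP_cons`); `l = []`: `k = 0` and `pre 0 r = []`. `pre_spec`: induction on `X`.
* `tsum_FP`: strong induction on `k`. `k = 0`: only `l = []` (`FP_zero`). `k ≥ 1`: `tsum_list` (HEP/RnWord), `FP_nil`, `FP_cons`: `∑' c, wt c * ∑' l, ind (FP (k - ht c) l) * w l = ∑' c, wt c = 1` (`tot`; `ht c ≥ 1`).
* `tsum_FP_ext`: `FP_append`, `tsum_FP`.
* `tsum_split`: strong induction on `k`, generalizing `F`; `k = 0`: `FP_zero`. `k ≥ 1`: `tsum_list` on both sides, `ind (k ≤ ht c + h X) = ind (k - ht c ≤ h X)`, induction for `F (c :: ·)`.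
* `tsum_pre`: `ind (FP k' X) = ind (k ≤ h X) * ind (FP k' X)`, `tsum_split` at `k`, `pre_app`, `w_append`, `tsum_FP_ext`.
* `tsum_snoc`: from `tsum_list` with `List.reverse` (an involution: `Equiv.tsum_eq`).
* `tsum_cr`: `tsum_split` at `k = j + 1`, `tsum_snoc`, `FP_snoc`; or from `tsum_cut'` of HEP/RnCut applied to `fun X => ind (j < h X) * F X`.
-/

namespace Pool.Agent.HEP

open scoped ENNReal
open Finset

namespace Alph

variable (A : Alph)

theorem FP_nil {k : ℕ} : A.FP k [] ↔ k = 0 := by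
  unfold FP
  constructor
  · rintro ⟨h, _⟩
    rw [A.h_nil] at h
    omega
  · rintro rfl
    exact ⟨Nat.zero_le _, fun l' c r e => by simp at e⟩

theorem FP_zero {l : List A.B} : A.FP 0 l ↔ l = [] := by
  constructor
  · rintro ⟨_, h⟩
    rcases l with _ | ⟨c, l⟩
    · rfl
    · exact absurd (h [] c l rfl) (Nat.not_lt_zero _)
  · rintro rfl
    exact A.FP_nil.2 rfl

theorem FP_cons {k : ℕ} {c : A.B} {l : List A.B} : A.FP k (c :: l) ↔ 1 ≤ k ∧ A.FP (k - A.ht c) l := by
  constructor
  · rintro ⟨h1, h2⟩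
    have h3 := h2 [] c l rfl
    rw [A.h_nil] at h3
    rw [A.h_cons] at h1
    refine ⟨h3, by omega, ?_⟩
    intro l' c' r e
    have h4 := h2 (c :: l') c' r (by rw [e]; rfl)
    rw [A.h_cons] at h4
    omega
  · rintro ⟨h1, h2, h3⟩
    refine ⟨by rw [A.h_cons]; omega, ?_⟩
    intro l' c' r e
    rcases l' with _ | ⟨a, l'⟩
    · rw [A.h_nil]
      omega
    · rw [List.cons_append, List.cons.injEq] at e
      have h4 := h3 l' c' r e.2
      rw [A.h_cons, ← e.1]
      omega

theorem FP_snoc {k : ℕ} {l : List A.B} {c : A.B} : A.FP k (l ++ [c]) ↔ A.h l < k ∧ k ≤ A.h l + A.ht c := by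
  induction l generalizing k with
  | nil =>
    rw [List.nil_append, A.FP_cons, A.FP_nil, A.h_nil]
    omega
  | cons a l ih =>
    rw [List.cons_append, A.FP_cons, ih, A.h_cons]
    omega

theorem FP_append {k k' : ℕ} {l : List A.B} (h : A.FP k l) (hk : k ≤ k') (r : List A.B) :
    A.FP k' (l ++ r) ↔ A.FP (k' - A.h l) r := by
  induction l generalizing k k' with
  | nil => rw [List.nil_append, A.h_nil, Nat.sub_zero]
  | cons c l ih =>
    obtain ⟨h1, h2⟩ := A.FP_cons.1 h
    rw [List.cons_append, A.FP_cons, ih h2 (by omega : k - A.ht c ≤ k' - A.ht c), A.h_cons, Nat.sub_sub]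
    exact ⟨fun h => h.2, fun h => ⟨by omega, h⟩⟩

theorem pre_app {k : ℕ} {l : List A.B} (h : A.FP k l) (r : List A.B) : A.pre k (l ++ r) = l := by
  induction l generalizing k with
  | nil =>
    have hk := A.FP_nil.1 h
    subst hk
    rw [List.nil_append]
    rcases r with _ | ⟨c, r⟩
    · rfl
    · rw [pre, if_pos rfl]
  | cons c l ih =>
    obtain ⟨h1, h2⟩ := A.FP_cons.1 h
    rw [List.cons_append, pre, if_neg (by omega), ih h2]

theorem pre_spec {k : ℕ} {X : List A.B} (h : k ≤ A.h X) : A.FP k (A.pre k X) ∧ ∃ r, X = A.pre k X ++ r := by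
  induction X generalizing k with
  | nil =>
    rw [A.h_nil] at h
    exact ⟨A.FP_nil.2 (by omega), [], rfl⟩
  | cons c X ih =>
    by_cases hk : k = 0
    · rw [pre, if_pos hk]
      exact ⟨A.FP_nil.2 hk, c :: X, rfl⟩
    · rw [A.h_cons] at h
      obtain ⟨h1, r, hr⟩ := ih (k := k - A.ht c) (by omega)
      rw [pre, if_neg hk]
      refine ⟨A.FP_cons.2 ⟨by omega, h1⟩, r, ?_⟩
      rw [List.cons_append, ← hr]

theorem tsum_FP (k : ℕ) : ∑' l, ind (A.FP k l) * A.w l = 1 := by
  induction k using Nat.strong_induction_on with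
  | _ k ih =>
    by_cases hk : k = 0
    · subst hk
      rw [tsum_eq_single ([] : List A.B)]
      · rw [ind_true (A.FP_zero.2 rfl), one_mul, A.w_nil]
      · intro l hl
        rw [ind_false (fun h => hl (A.FP_zero.1 h)), zero_mul]
    · rw [tsum_list, ind_false (fun h => hk (A.FP_nil.1 h)), zero_mul, zero_add]
      refine Eq.trans (tsum_congr fun c => ?_) A.tot
      have h1 := ih (k - A.ht c) (by have := A.ht_pos c; omega)
      calc ∑' l, ind (A.FP k (c :: l)) * A.w (c :: l)
          = ∑' l, A.wt c * (ind (A.FP (k - A.ht c) l) * A.w l) := by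
            refine tsum_congr fun l => ?_
            rw [ind_congr (show A.FP k (c :: l) ↔ A.FP (k - A.ht c) l from
              A.FP_cons.trans ⟨fun h => h.2, fun h => ⟨by omega, h⟩⟩), A.w_cons]
            ring
        _ = A.wt c := by rw [ENNReal.tsum_mul_left, h1, mul_one]

theorem tsum_FP_ext {k k' : ℕ} {l : List A.B} (h : A.FP k l) (hk : k ≤ k') :
    ∑' r, ind (A.FP k' (l ++ r)) * A.w r = 1 := by
  rw [← A.tsum_FP (k' - A.h l)]
  exact tsum_congr fun r => by rw [ind_congr (A.FP_append h hk r)]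

theorem tsum_split (k : ℕ) (F : List A.B → ℝ≥0∞) :
    ∑' X, ind (k ≤ A.h X) * F X = ∑' l, ind (A.FP k l) * ∑' r, F (l ++ r) := by
  induction k using Nat.strong_induction_on generalizing F with
  | _ k ih =>
    by_cases hk : k = 0
    · subst hk
      rw [tsum_eq_single ([] : List A.B) (f := fun l => ind (A.FP 0 l) * ∑' r, F (l ++ r))]
      · rw [ind_true (A.FP_zero.2 rfl), one_mul]
        exact tsum_congr fun X => by rw [ind_true (Nat.zero_le _), one_mul, List.nil_append]
      · intro l hl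
        rw [ind_false (fun h => hl (A.FP_zero.1 h)), zero_mul]
    · rw [tsum_list, tsum_list (fun l => ind (A.FP k l) * ∑' r, F (l ++ r)),
        ind_false (show ¬ k ≤ A.h [] by rw [A.h_nil]; omega), zero_mul, zero_add,
        ind_false (fun h => hk (A.FP_nil.1 h)), zero_mul, zero_add]
      refine tsum_congr fun c => ?_
      have h1 := ih (k - A.ht c) (by have := A.ht_pos c; omega) (fun X => F (c :: X))
      calc ∑' X, ind (k ≤ A.h (c :: X)) * F (c :: X)
          = ∑' X, ind (k - A.ht c ≤ A.h X) * F (c :: X) := by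
            refine tsum_congr fun X => ?_
            rw [ind_congr (show k ≤ A.h (c :: X) ↔ k - A.ht c ≤ A.h X by rw [A.h_cons]; omega)]
        _ = ∑' l, ind (A.FP (k - A.ht c) l) * ∑' r, F (c :: (l ++ r)) := h1
        _ = ∑' l, ind (A.FP k (c :: l)) * ∑' r, F (c :: l ++ r) := by
            refine tsum_congr fun l => ?_
            rw [ind_congr (show A.FP (k - A.ht c) l ↔ A.FP k (c :: l) from
              ⟨fun h => A.FP_cons.2 ⟨by omega, h⟩, fun h => (A.FP_cons.1 h).2⟩)]
            rfl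

theorem tsum_pre {k k' : ℕ} (hk : k ≤ k') (F : List A.B → ℝ≥0∞) :
    ∑' X, ind (A.FP k' X) * (F (A.pre k X) * A.w X) = ∑' l, ind (A.FP k l) * (F l * A.w l) := by
  have h1 : ∑' X, ind (A.FP k' X) * (F (A.pre k X) * A.w X) =
      ∑' X, ind (k ≤ A.h X) * (ind (A.FP k' X) * (F (A.pre k X) * A.w X)) := by
    refine tsum_congr fun X => ?_
    by_cases hX : A.FP k' X
    · rw [ind_true (show k ≤ A.h X from hk.trans hX.1), one_mul]
    · rw [ind_false hX, zero_mul, mul_zero]
  rw [h1, A.tsum_split k]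
  refine tsum_congr fun l => ?_
  by_cases hl : A.FP k l
  · rw [ind_true hl, one_mul, one_mul]
    calc ∑' r, ind (A.FP k' (l ++ r)) * (F (A.pre k (l ++ r)) * A.w (l ++ r))
        = ∑' r, (F l * A.w l) * (ind (A.FP k' (l ++ r)) * A.w r) := by
          refine tsum_congr fun r => ?_
          rw [A.pre_app hl, A.w_append]
          ring
      _ = F l * A.w l := by rw [ENNReal.tsum_mul_left, A.tsum_FP_ext hl hk, mul_one]
  · rw [ind_false hl, zero_mul, zero_mul]

theorem tsum_snoc {β : Type} (F : List β → ℝ≥0∞) : ∑' l, F l = F [] + ∑' l, ∑' c, F (l ++ [c]) := by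
  have h1 : ∀ G : List β → ℝ≥0∞, ∑' l : List β, G l.reverse = ∑' l, G l := fun G =>
    (⟨List.reverse, List.reverse, List.reverse_reverse, List.reverse_reverse⟩ : List β ≃ List β).tsum_eq G
  rw [← h1 F, tsum_list, List.reverse_nil]
  congr 1
  calc ∑' c, ∑' l, F (c :: l).reverse = ∑' c, ∑' l : List β, F (l.reverse ++ [c]) := by
        refine tsum_congr fun c => tsum_congr fun l => ?_
        rw [List.reverse_cons]
    _ = ∑' c, ∑' l, F (l ++ [c]) := tsum_congr fun c => h1 (fun l => F (l ++ [c]))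
    _ = ∑' l, ∑' c, F (l ++ [c]) := ENNReal.tsum_comm

theorem tsum_cr (j : ℕ) (F : List A.B → ℝ≥0∞) :
    ∑' X, ind (j < A.h X) * F X =
      ∑' l, ∑' c, ind (A.h l ≤ j ∧ j < A.h l + A.ht c) * ∑' r, F (l ++ c :: r) := by
  have h1 := A.tsum_split (j + 1) F
  rw [tsum_snoc (fun l => ind (A.FP (j + 1) l) * ∑' r, F (l ++ r)),
    ind_false (fun h => absurd (A.FP_nil.1 h) (Nat.succ_ne_zero j)), zero_mul, zero_add] at h1
  refine Eq.trans (tsum_congr fun X => ?_) (h1.trans (tsum_congr fun l => tsum_congr fun c => ?_))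
  · rw [ind_congr (show j < A.h X ↔ j + 1 ≤ A.h X from Iff.rfl)]
  · rw [ind_congr (show A.FP (j + 1) (l ++ [c]) ↔ A.h l ≤ j ∧ j < A.h l + A.ht c by
      rw [A.FP_snoc]; omega)]
    congr 1
    exact tsum_congr fun r => by rw [List.append_assoc]; rfl

end Alph

end Pool.Agent.HEP
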