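import Pool.Agent.PLF.Pre
import Pool.Agent.HEP.RcOne

/-!
Project PLF, module AU: `a m * U m ≤ K0 m ^ 2 * (2 + Vp m)`.

PAPER PROOF. Adapt HEP/RcOne (`a_le_T`, `a_mul_U`; copy its private lemmas with new names; `a_anti` is public): replace `good σ 1` by `gp σ`, the planarity `plt`, `plf` of `Hyp` by `pl1`, `pl2` of `Gyp`:
(1) a pair `l1, l2` of `a N` (`Av l1 l2`, `h l1 ≤ N`, `h l2 ≤ N`) has `h l1 ≤ h l2` (`σ = true`: `l = l1`, `s = cut (h l - 1) l2`) or `h l2 < h l1` (`σ = false`: `l = l2`, `s = cut (h l) l1`). Then `gp σ l s`: `av` by `Av_pre` (`cut_prefix`), `h s ≤ h l - d σ` by `h_cut_le`;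
for a prefix `t` of `s` (`s = t ++ t'`, `l2 = s ++ r = t ++ (t' ++ r)`): `σ = true`: `pl1 l t (t' ++ r)`, needs `h t + 1 ≤ h l`: true if `h l ≥ 1` (`h t ≤ h s ≤ h l - 1`); if `l = []` then `s = []` (`h s ≤ 0`), `t = []` and `os σ 1 l [] ` is true by its first clause. `σ = false`: `pl2 l t (t' ++ r)` (`h t ≤ h l < h l1`).
(2) as in HEP: `a m * U m ≤ ∑ N ≤ m, b N * a N ≤ K0 m * (Tp true m + Tp false m)`, `Tp σ M = ∑' l, ∑' s, ind (gp σ l s ∧ h l ≤ M) * (w l * w s * Lam (del σ l s))`.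
(3) `Tp σ M ≤ K0 M * (1 + ∑ q ∈ range (M + 1), mt σ q 0)`. For a pair with `h s + d σ ≤ h l` and `0 < h s + d σ`: `l = l0 ++ l'`, `FP (h s + d σ) l0` (`tsum_split`), `gp σ l0 s`: `av` by `av_pre`, height by `FP`, `os σ 1 l0 t` for the prefixes `t` of `s` by `Gyp.res` applied to `good σ 1 (l0 ++ l') t`
(`av σ (l0 ++ l') t` by `av_pre`, `h t ≤ h s ≤ h l0 - d σ`); `Lam (del σ l s) ≤ Lam (h l')` (`del = h l0 + h l' - d σ - h s ≥ h l'`), and `∑' l', ind (h l' ≤ M) * (w l' * Lam (h l')) = ∑_(k ≤ M) b k * Lam k ≤ K0 M` (`tsum_w_h`, `sum_bLam_le`); `0 < h l0` as `FP` over a positive height.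
The remaining pairs: `h s + d σ = 0` (`σ = false`, `s = []`, `l` arbitrary): `∑' l, ind (h l ≤ M) * (w l * Lam (h l)) ≤ K0 M`; and `h l < h s + d σ` together with `h s ≤ h l - d σ`: only `σ = true`, `l = []`, `s = []`: mass 1 `≤ K0 M` (`one_le_K0`).
(4) Sum of both sides: `Tp true M + Tp false M ≤ K0 M * (2 + Vp M)`.
-/

namespace Pool.Agent.HEP

open scoped ENNReal
open Finset

namespace Sys

variable {S : Sys}

/-- The function `T` of one side, for the pairs `gp`. -/
private noncomputable def AU_T (S : Sys) (σ : Bool) (M : ℕ) : ℝ≥0∞ :=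
  ∑' l, ∑' s, ind (S.gp σ l s ∧ S.h l ≤ M) * (S.w l * S.w s * S.Lam (S.del σ l s))

private theorem AU_Av_cut_r {N : ℕ} {l s : List S.B} (h : S.Av l s) : S.Av l (S.cut N s) := by
  obtain ⟨t, ht⟩ := S.cut_prefix N s
  have h' : S.Av (l ++ []) (S.cut N s ++ t) := by rw [← ht, List.append_nil]; exact h
  exact S.Av_pre _ _ _ _ h'

private theorem AU_Av_cut_l {N : ℕ} {l s : List S.B} (h : S.Av l s) : S.Av (S.cut N l) s := by
  obtain ⟨t, ht⟩ := S.cut_prefix N l
  have h' : S.Av (S.cut N l ++ t) (s ++ []) := by rw [← ht, List.append_nil]; exact h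
  exact S.Av_pre _ _ _ _ h'

/-- The short leg, cut, for a fixed long leg. -/
private theorem AU_short {N c : ℕ} (hc : c ≤ N) (P : List S.B → Prop) (Q : List S.B → Prop)
    (hPQ : ∀ s, P s → Q (S.cut c s)) :
    ∑' s, ind (P s ∧ S.h s ≤ N) * (S.w s * S.Lam (N - S.h s)) ≤
      ∑' s, ind (Q s ∧ S.h s ≤ c) * (S.w s * S.Lam (c - S.h s)) := by
  calc ∑' s, ind (P s ∧ S.h s ≤ N) * (S.w s * S.Lam (N - S.h s))
      ≤ ∑' s, ind (S.h s ≤ N) * (ind (Q (S.cut c s)) * (S.w s * S.Lam (N - S.h s))) := by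
        refine ENNReal.tsum_le_tsum fun s => ?_
        rw [← mul_assoc (ind (S.h s ≤ N)), ← ind_and]
        exact mul_le_mul' (ind_mono fun h => ⟨h.2, hPQ s h.1⟩) le_rfl
    _ ≤ ∑' s, ind (S.h s ≤ c) * (ind (Q s) * (S.w s * S.Lam (c - S.h s))) :=
        S.cont_le hc (fun s => ind (Q s))
    _ = _ := by
        refine tsum_congr fun s => ?_
        rw [ind_and]
        ring

private theorem AU_gp_true {K : ℕ} (hG : S.Gyp K) {l s : List S.B} (h1 : S.Av l s)
    (h2 : S.h l ≤ S.h s) : S.gp true l (S.cut (S.h l - 1) s) := by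
  refine ⟨AU_Av_cut_r h1, S.h_cut_le _ _, fun t r ht => ?_⟩
  obtain ⟨r0, hr0⟩ := S.cut_prefix (S.h l - 1) s
  have h3 : S.h (S.cut (S.h l - 1) s) ≤ S.h l - 1 := S.h_cut_le _ _
  have h4 : s = t ++ (r ++ r0) := by
    rw [← List.append_assoc, ← ht]
    exact hr0
  rw [ht, S.h_append] at h3
  rcases Nat.eq_zero_or_pos (S.h l) with h5 | h5
  · refine Or.inl (S.h_eq_zero.1 ?_)
    omega
  · rw [h4] at h1 h2
    exact hG.pl1 l t (r ++ r0) h1 h2 (by omega)

private theorem AU_gp_false {K : ℕ} (hG : S.Gyp K) {l s : List S.B} (h1 : S.Av s l)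
    (h2 : S.h l < S.h s) : S.gp false l (S.cut (S.h l) s) := by
  refine ⟨AU_Av_cut_l h1, ?_, fun t r ht => ?_⟩
  · have := S.h_cut_le (S.h l) s
    simpa [d_false] using this
  obtain ⟨r0, hr0⟩ := S.cut_prefix (S.h l) s
  have h3 : S.h (S.cut (S.h l) s) ≤ S.h l := S.h_cut_le _ _
  have h4 : s = t ++ (r ++ r0) := by
    rw [← List.append_assoc, ← ht]
    exact hr0
  rw [ht, S.h_append] at h3
  rw [h4] at h1 h2
  exact hG.pl2 l t (r ++ r0) h1 h2 (by omega)

private theorem AU_a_le {K : ℕ} (hG : S.Gyp K) (N : ℕ) : S.a N ≤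
    (∑' l, ∑' s, ind (S.gp true l s ∧ S.h l ≤ N) * (S.w l * S.w s * S.Lam (S.del true l s) * S.Lam (N - S.h l))) +
    ∑' l, ∑' s, ind (S.gp false l s ∧ S.h l ≤ N) * (S.w l * S.w s * S.Lam (S.del false l s) * S.Lam (N - S.h l)) := by
  -- the two cases
  have h0 : S.a N ≤ (∑' l, ∑' s, ind (S.Av l s ∧ S.h l ≤ S.h s ∧ S.h l ≤ N ∧ S.h s ≤ N) *
        (S.w l * S.w s * (S.Lam (N - S.h l) * S.Lam (N - S.h s)))) +
      ∑' l, ∑' s, ind (S.Av s l ∧ S.h l < S.h s ∧ S.h l ≤ N ∧ S.h s ≤ N) *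
        (S.w l * S.w s * (S.Lam (N - S.h l) * S.Lam (N - S.h s))) := by
    have e2 : ∑' l, ∑' s, ind (S.Av s l ∧ S.h l < S.h s ∧ S.h l ≤ N ∧ S.h s ≤ N) *
        (S.w l * S.w s * (S.Lam (N - S.h l) * S.Lam (N - S.h s))) =
        ∑' l, ∑' s, ind (S.Av l s ∧ S.h s < S.h l ∧ S.h l ≤ N ∧ S.h s ≤ N) *
        (S.w l * S.w s * (S.Lam (N - S.h l) * S.Lam (N - S.h s))) := by
      rw [ENNReal.tsum_comm]
      refine tsum_congr fun l => tsum_congr fun s => ?_
      rw [ind_congr (show (S.Av l s ∧ S.h s < S.h l ∧ S.h s ≤ N ∧ S.h l ≤ N) ↔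
        (S.Av l s ∧ S.h s < S.h l ∧ S.h l ≤ N ∧ S.h s ≤ N) by tauto)]
      ring
    rw [e2, ← ENNReal.tsum_add]
    unfold a
    refine ENNReal.tsum_le_tsum fun l => ?_
    rw [← ENNReal.tsum_add]
    refine ENNReal.tsum_le_tsum fun s => ?_
    rw [← add_mul]
    refine mul_le_mul' (le_trans (ind_mono fun h => ?_) (ind_or_le _ _)) le_rfl
    rcases le_or_gt (S.h l) (S.h s) with h1 | h1
    · exact Or.inl ⟨h.1, h1, h.2⟩
    · exact Or.inr ⟨h.1, h1, h.2⟩
  refine h0.trans (add_le_add ?_ ?_)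
  · refine ENNReal.tsum_le_tsum fun l => ?_
    by_cases hl : S.h l ≤ N
    · have key := AU_short (S := S) (N := N) (c := S.h l - 1) (by omega)
        (fun s => S.Av l s ∧ S.h l ≤ S.h s) (fun s => S.gp true l s) (fun s hs =>
          AU_gp_true hG hs.1 hs.2)
      calc ∑' s, ind (S.Av l s ∧ S.h l ≤ S.h s ∧ S.h l ≤ N ∧ S.h s ≤ N) *
            (S.w l * S.w s * (S.Lam (N - S.h l) * S.Lam (N - S.h s)))
          = (S.w l * S.Lam (N - S.h l)) *
            ∑' s, ind ((S.Av l s ∧ S.h l ≤ S.h s) ∧ S.h s ≤ N) * (S.w s * S.Lam (N - S.h s)) := by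
            rw [← ENNReal.tsum_mul_left]
            refine tsum_congr fun s => ?_
            rw [ind_congr (show (S.Av l s ∧ S.h l ≤ S.h s ∧ S.h l ≤ N ∧ S.h s ≤ N) ↔
              ((S.Av l s ∧ S.h l ≤ S.h s) ∧ S.h s ≤ N) by tauto)]
            ring
        _ ≤ (S.w l * S.Lam (N - S.h l)) *
            ∑' s, ind (S.gp true l s ∧ S.h s ≤ S.h l - 1) * (S.w s * S.Lam (S.h l - 1 - S.h s)) :=
            mul_le_mul' le_rfl key
        _ ≤ ∑' s, ind (S.gp true l s ∧ S.h l ≤ N) *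
            (S.w l * S.w s * S.Lam (S.del true l s) * S.Lam (N - S.h l)) := by
            rw [← ENNReal.tsum_mul_left]
            refine ENNReal.tsum_le_tsum fun s => ?_
            have e : ind (S.gp true l s ∧ S.h s ≤ S.h l - 1) ≤ ind (S.gp true l s ∧ S.h l ≤ N) :=
              ind_mono fun h => ⟨h.1, hl⟩
            calc (S.w l * S.Lam (N - S.h l)) *
                  (ind (S.gp true l s ∧ S.h s ≤ S.h l - 1) * (S.w s * S.Lam (S.h l - 1 - S.h s)))
                = ind (S.gp true l s ∧ S.h s ≤ S.h l - 1) *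
                  (S.w l * S.w s * S.Lam (S.h l - 1 - S.h s) * S.Lam (N - S.h l)) := by ring
              _ ≤ _ := mul_le_mul' e le_rfl
    · refine le_of_eq_of_le (ENNReal.tsum_eq_zero.2 fun s => ?_) zero_le
      rw [ind_false (fun h => hl h.2.2.1), zero_mul]
  · refine ENNReal.tsum_le_tsum fun l => ?_
    by_cases hl : S.h l ≤ N
    · have key := AU_short (S := S) (N := N) (c := S.h l) hl
        (fun s => S.Av s l ∧ S.h l < S.h s) (fun s => S.gp false l s) (fun s hs =>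
          AU_gp_false hG hs.1 hs.2)
      calc ∑' s, ind (S.Av s l ∧ S.h l < S.h s ∧ S.h l ≤ N ∧ S.h s ≤ N) *
            (S.w l * S.w s * (S.Lam (N - S.h l) * S.Lam (N - S.h s)))
          = (S.w l * S.Lam (N - S.h l)) *
            ∑' s, ind ((S.Av s l ∧ S.h l < S.h s) ∧ S.h s ≤ N) * (S.w s * S.Lam (N - S.h s)) := by
            rw [← ENNReal.tsum_mul_left]
            refine tsum_congr fun s => ?_
            rw [ind_congr (show (S.Av s l ∧ S.h l < S.h s ∧ S.h l ≤ N ∧ S.h s ≤ N) ↔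
              ((S.Av s l ∧ S.h l < S.h s) ∧ S.h s ≤ N) by tauto)]
            ring
        _ ≤ (S.w l * S.Lam (N - S.h l)) *
            ∑' s, ind (S.gp false l s ∧ S.h s ≤ S.h l) * (S.w s * S.Lam (S.h l - S.h s)) :=
            mul_le_mul' le_rfl key
        _ ≤ ∑' s, ind (S.gp false l s ∧ S.h l ≤ N) *
            (S.w l * S.w s * S.Lam (S.del false l s) * S.Lam (N - S.h l)) := by
            rw [← ENNReal.tsum_mul_left]
            refine ENNReal.tsum_le_tsum fun s => ?_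
            have e : ind (S.gp false l s ∧ S.h s ≤ S.h l) ≤ ind (S.gp false l s ∧ S.h l ≤ N) :=
              ind_mono fun h => ⟨h.1, hl⟩
            have e' : S.del false l s = S.h l - S.h s := by simp [del, d_false]
            rw [e']
            calc (S.w l * S.Lam (N - S.h l)) *
                  (ind (S.gp false l s ∧ S.h s ≤ S.h l) * (S.w s * S.Lam (S.h l - S.h s)))
                = ind (S.gp false l s ∧ S.h s ≤ S.h l) *
                  (S.w l * S.w s * S.Lam (S.h l - S.h s) * S.Lam (N - S.h l)) := by ring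
              _ ≤ _ := mul_le_mul' e le_rfl
    · refine le_of_eq_of_le (ENNReal.tsum_eq_zero.2 fun s => ?_) zero_le
      rw [ind_false (fun h => hl h.2.2.1), zero_mul]

private theorem AU_sum {K : ℕ} (hG : S.Gyp K) (σ : Bool) (m : ℕ) :
    ∑ N ∈ Finset.range (m + 1), S.b N *
      (∑' l, ∑' s, ind (S.gp σ l s ∧ S.h l ≤ N) * (S.w l * S.w s * S.Lam (S.del σ l s) * S.Lam (N - S.h l)))
      ≤ S.K0 m * AU_T S σ m := by
  have h1 : ∀ l s : List S.B, ∑ N ∈ Finset.range (m + 1), S.b N *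
      (ind (S.gp σ l s ∧ S.h l ≤ N) * (S.w l * S.w s * S.Lam (S.del σ l s) * S.Lam (N - S.h l))) ≤
      S.K0 m * (ind (S.gp σ l s ∧ S.h l ≤ m) * (S.w l * S.w s * S.Lam (S.del σ l s))) := by
    intro l s
    by_cases hl : S.gp σ l s ∧ S.h l ≤ m
    · rw [ind_true hl, one_mul]
      have h2 : ∀ N ∈ Finset.range (m + 1), S.b N *
          (ind (S.gp σ l s ∧ S.h l ≤ N) * (S.w l * S.w s * S.Lam (S.del σ l s) * S.Lam (N - S.h l))) ≤
          (S.w l * S.w s * S.Lam (S.del σ l s)) *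
            (if S.h l ≤ N then S.b (N - S.h l) * S.Lam (N - S.h l) else 0) := by
        intro N _
        by_cases hN : S.h l ≤ N
        · rw [ind_true ⟨hl.1, hN⟩, if_pos hN, one_mul]
          calc S.b N * (S.w l * S.w s * S.Lam (S.del σ l s) * S.Lam (N - S.h l))
              ≤ S.b (N - S.h l) * (S.w l * S.w s * S.Lam (S.del σ l s) * S.Lam (N - S.h l)) :=
                mul_le_mul' (hG.anti (Nat.sub_le _ _)) le_rfl
            _ = _ := by ring
        · rw [ind_false (fun h => hN h.2), if_neg hN, zero_mul, mul_zero, mul_zero]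
      refine (Finset.sum_le_sum h2).trans ?_
      rw [← Finset.mul_sum, mul_comm]
      refine mul_le_mul' ?_ le_rfl
      refine le_trans ?_ (S.sum_bLam_le m)
      rw [← Finset.sum_filter]
      have h3 : ∑ N ∈ (Finset.range (m + 1)).filter (fun N => S.h l ≤ N), S.b (N - S.h l) * S.Lam (N - S.h l) =
          ∑ k ∈ ((Finset.range (m + 1)).filter (fun N => S.h l ≤ N)).image (fun N => N - S.h l),
            S.b k * S.Lam k := by
        rw [Finset.sum_image]
        intro x hx y hy e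
        simp only [Finset.coe_filter, Finset.mem_range, Set.mem_ofPred_eq] at hx hy
        simp only at e
        omega
      rw [h3]
      refine Finset.sum_le_sum_of_subset ?_
      intro k hk
      simp only [Finset.mem_image, Finset.mem_filter, Finset.mem_range] at hk ⊢
      obtain ⟨N, hN, rfl⟩ := hk
      omega
    · refine le_of_eq_of_le (Finset.sum_eq_zero fun N hN => ?_) zero_le
      rw [Finset.mem_range] at hN
      rw [ind_false (fun h => hl ⟨h.1, by omega⟩), zero_mul, mul_zero]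
  unfold AU_T
  simp only [← ENNReal.tsum_mul_left]
  rw [← Summable.tsum_finsetSum (fun _ _ => ENNReal.summable)]
  refine ENNReal.tsum_le_tsum fun l => ?_
  rw [← Summable.tsum_finsetSum (fun _ _ => ENNReal.summable)]
  exact ENNReal.tsum_le_tsum fun s => h1 l s

private theorem AU_aU {K : ℕ} (hG : S.Gyp K) (m : ℕ) :
    S.a m * S.U m ≤ S.K0 m * (AU_T S true m + AU_T S false m) := by
  calc S.a m * S.U m = ∑ N ∈ Finset.range (m + 1), S.b N * S.a m := by
        unfold Alph.U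
        rw [Finset.mul_sum]
        exact Finset.sum_congr rfl fun N _ => mul_comm _ _
    _ ≤ ∑ N ∈ Finset.range (m + 1), S.b N * S.a N :=
        Finset.sum_le_sum fun N hN => mul_le_mul' le_rfl (a_anti (by rw [Finset.mem_range] at hN; omega))
    _ ≤ ∑ N ∈ Finset.range (m + 1), (S.b N *
          (∑' l, ∑' s, ind (S.gp true l s ∧ S.h l ≤ N) *
            (S.w l * S.w s * S.Lam (S.del true l s) * S.Lam (N - S.h l))) +
          S.b N * ∑' l, ∑' s, ind (S.gp false l s ∧ S.h l ≤ N) *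
            (S.w l * S.w s * S.Lam (S.del false l s) * S.Lam (N - S.h l))) := by
        refine Finset.sum_le_sum fun N _ => ?_
        rw [← mul_add]
        exact mul_le_mul' le_rfl (AU_a_le hG N)
    _ ≤ S.K0 m * AU_T S true m + S.K0 m * AU_T S false m := by
        rw [Finset.sum_add_distrib]
        exact add_le_add (AU_sum hG true m) (AU_sum hG false m)
    _ = S.K0 m * (AU_T S true m + AU_T S false m) := by ring

private theorem AU_K0 (S : Sys) (M : ℕ) :
    ∑' l, ind (S.h l ≤ M) * (S.w l * S.Lam (S.h l)) ≤ S.K0 M := by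
  rw [S.tsum_w_h M S.Lam]
  exact S.sum_bLam_le M

/-- The long leg is cut at its first passage. -/
private theorem AU_gp_pre {K : ℕ} (hG : S.Gyp K) {σ : Bool} {l r s : List S.B}
    (h : S.gp σ (l ++ r) s) (hl : S.h s ≤ S.h l - d σ) : S.gp σ l s := by
  obtain ⟨h1, h2, h3⟩ := h
  refine ⟨?_, hl, fun t t' ht => ?_⟩
  · have h4 : S.av σ (l ++ r) (s ++ []) := by rw [List.append_nil]; exact h1
    exact S.av_pre h4
  · have h4 : S.av σ (l ++ r) t := by
      have h5 : S.av σ ((l ++ r) ++ []) (t ++ t') := by rw [List.append_nil, ← ht]; exact h1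
      exact S.av_pre h5
    have h6 : S.h t ≤ S.h s := by rw [ht, S.h_append]; exact Nat.le_add_right _ _
    have h7 : S.good σ 1 (l ++ r) t := ⟨h4, h6.trans h2, h3 t t' ht⟩
    exact (hG.res σ 1 l r t h7 (h6.trans hl)).2.2

/-- The main part of `AU_T`. -/
private theorem AU_main {K : ℕ} (hG : S.Gyp K) (σ : Bool) (M : ℕ) :
    ∑' l, ∑' s, ind (S.gp σ l s ∧ S.h l ≤ M ∧ S.h s + d σ ≤ S.h l ∧ 0 < S.h s + d σ) *
      (S.w l * S.w s * S.Lam (S.del σ l s)) ≤
      S.K0 M * ∑ q ∈ range (M + 1), S.mt σ q 0 := by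
  rw [ENNReal.tsum_comm]
  have h1 : ∀ s : List S.B, ∑' l, ind (S.gp σ l s ∧ S.h l ≤ M ∧ S.h s + d σ ≤ S.h l ∧ 0 < S.h s + d σ) *
      (S.w l * S.w s * S.Lam (S.del σ l s)) ≤
      S.K0 M * ∑' l, ind (S.gp σ l s ∧ S.FP (S.h s + d σ) l ∧ S.h s ≤ M ∧ 0 < S.h l) *
        (S.w l * S.w s) := by
    intro s
    calc ∑' l, ind (S.gp σ l s ∧ S.h l ≤ M ∧ S.h s + d σ ≤ S.h l ∧ 0 < S.h s + d σ) *
          (S.w l * S.w s * S.Lam (S.del σ l s))
        = ∑' l, ind (S.h s + d σ ≤ S.h l) * (ind (S.gp σ l s ∧ S.h l ≤ M ∧ 0 < S.h s + d σ) *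
          (S.w l * S.w s * S.Lam (S.del σ l s))) := by
          refine tsum_congr fun l => ?_
          have e : ind (S.gp σ l s ∧ S.h l ≤ M ∧ S.h s + d σ ≤ S.h l ∧ 0 < S.h s + d σ) =
              ind (S.h s + d σ ≤ S.h l) * ind (S.gp σ l s ∧ S.h l ≤ M ∧ 0 < S.h s + d σ) := by
            rw [← ind_and]
            exact ind_congr (by tauto)
          rw [e]
          ring
      _ = ∑' l, ind (S.FP (S.h s + d σ) l) * ∑' r, ind (S.gp σ (l ++ r) s ∧ S.h (l ++ r) ≤ M ∧
            0 < S.h s + d σ) * (S.w (l ++ r) * S.w s * S.Lam (S.del σ (l ++ r) s)) :=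
          S.tsum_split (S.h s + d σ) fun l => ind (S.gp σ l s ∧ S.h l ≤ M ∧ 0 < S.h s + d σ) *
            (S.w l * S.w s * S.Lam (S.del σ l s))
      _ ≤ ∑' l, S.K0 M * (ind (S.gp σ l s ∧ S.FP (S.h s + d σ) l ∧ S.h s ≤ M ∧ 0 < S.h l) *
            (S.w l * S.w s)) := by
          refine ENNReal.tsum_le_tsum fun l => ?_
          by_cases hf : S.FP (S.h s + d σ) l
          · rw [ind_true hf, one_mul]
            have hf1 : S.h s + d σ ≤ S.h l := hf.1
            have h2 : ∀ r : List S.B, ind (S.gp σ (l ++ r) s ∧ S.h (l ++ r) ≤ M ∧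
                0 < S.h s + d σ) * (S.w (l ++ r) * S.w s * S.Lam (S.del σ (l ++ r) s)) ≤
                (ind (S.gp σ l s ∧ S.FP (S.h s + d σ) l ∧ S.h s ≤ M ∧ 0 < S.h l) *
                  (S.w l * S.w s)) * (ind (S.h r ≤ M) * (S.w r * S.Lam (S.h r))) := by
              intro r
              have e1 : ind (S.gp σ (l ++ r) s ∧ S.h (l ++ r) ≤ M ∧ 0 < S.h s + d σ) ≤
                  ind (S.gp σ l s ∧ S.FP (S.h s + d σ) l ∧ S.h s ≤ M ∧ 0 < S.h l) *
                    ind (S.h r ≤ M) := by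
                rw [← ind_and]
                refine ind_mono fun h => ?_
                obtain ⟨g1, g2, g3⟩ := h
                rw [S.h_append] at g2
                exact ⟨⟨AU_gp_pre hG g1 (by omega), hf, by omega, by omega⟩, by omega⟩
              have e2 : S.Lam (S.del σ (l ++ r) s) ≤ S.Lam (S.h r) := by
                apply S.Lam_anti
                unfold del
                rw [S.h_append]
                omega
              calc ind (S.gp σ (l ++ r) s ∧ S.h (l ++ r) ≤ M ∧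
                    0 < S.h s + d σ) * (S.w (l ++ r) * S.w s * S.Lam (S.del σ (l ++ r) s))
                  ≤ (ind (S.gp σ l s ∧ S.FP (S.h s + d σ) l ∧ S.h s ≤ M ∧ 0 < S.h l) *
                    ind (S.h r ≤ M)) * (S.w (l ++ r) * S.w s * S.Lam (S.h r)) :=
                    mul_le_mul' e1 (mul_le_mul' le_rfl e2)
                _ = _ := by
                    rw [S.w_append]
                    ring
            refine (ENNReal.tsum_le_tsum h2).trans ?_
            rw [ENNReal.tsum_mul_left, mul_comm]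
            exact mul_le_mul' (AU_K0 S M) le_rfl
          · rw [ind_false hf, zero_mul]
            exact zero_le
      _ = _ := ENNReal.tsum_mul_left
  refine (ENNReal.tsum_le_tsum h1).trans ?_
  rw [ENNReal.tsum_mul_left]
  refine mul_le_mul' le_rfl ?_
  rw [ENNReal.tsum_comm]
  unfold mt
  rw [← Summable.tsum_finsetSum (fun _ _ => ENNReal.summable)]
  refine ENNReal.tsum_le_tsum fun l => ?_
  rw [← Summable.tsum_finsetSum (fun _ _ => ENNReal.summable)]
  refine ENNReal.tsum_le_tsum fun s => ?_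
  by_cases h2 : S.gp σ l s ∧ S.FP (S.h s + d σ) l ∧ S.h s ≤ M ∧ 0 < S.h l
  · rw [ind_true h2]
    have h3 := Finset.single_le_sum (f := fun q => ind (S.gp σ l s ∧ S.FP (q + d σ) l ∧ S.h s = q ∧ 0 < S.h l) *
      (S.w l * S.w s)) (s := range (M + 1)) (fun _ _ => zero_le)
      (show S.h s ∈ range (M + 1) by rw [mem_range]; omega)
    refine le_trans (le_of_eq ?_) h3
    rw [ind_true ⟨h2.1, h2.2.1, rfl, h2.2.2.2⟩]
  · rw [ind_false h2, zero_mul]
    exact zero_le

private theorem AU_T_le {K : ℕ} (hG : S.Gyp K) (σ : Bool) (M : ℕ) :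
    AU_T S σ M ≤ S.K0 M * (1 + ∑ q ∈ range (M + 1), S.mt σ q 0) := by
  have h1 : AU_T S σ M ≤
      (∑' l, ∑' s, ind (S.gp σ l s ∧ S.h l ≤ M ∧ ¬ (S.h s + d σ ≤ S.h l ∧ 0 < S.h s + d σ)) *
        (S.w l * S.w s * S.Lam (S.del σ l s))) +
      ∑' l, ∑' s, ind (S.gp σ l s ∧ S.h l ≤ M ∧ S.h s + d σ ≤ S.h l ∧ 0 < S.h s + d σ) *
        (S.w l * S.w s * S.Lam (S.del σ l s)) := by
    unfold AU_T
    rw [← ENNReal.tsum_add]
    refine ENNReal.tsum_le_tsum fun l => ?_
    rw [← ENNReal.tsum_add]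
    refine ENNReal.tsum_le_tsum fun s => ?_
    rw [← add_mul]
    refine mul_le_mul' (le_trans (ind_mono fun h => ?_) (ind_or_le _ _)) le_rfl
    by_cases h2 : S.h s + d σ ≤ S.h l ∧ 0 < S.h s + d σ
    · exact Or.inr ⟨h.1, h.2, h2⟩
    · exact Or.inl ⟨h.1, h.2, h2⟩
  have h2 : (∑' l, ∑' s, ind (S.gp σ l s ∧ S.h l ≤ M ∧ ¬ (S.h s + d σ ≤ S.h l ∧ 0 < S.h s + d σ)) *
        (S.w l * S.w s * S.Lam (S.del σ l s))) ≤ S.K0 M := by
    have key : ∀ l s : List S.B,
        (S.gp σ l s ∧ S.h l ≤ M ∧ ¬ (S.h s + d σ ≤ S.h l ∧ 0 < S.h s + d σ)) →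
        s = [] ∧ S.h l ≤ M ∧ (σ = true → l = []) := by
      rintro l s ⟨⟨-, g1, -⟩, g2, g3⟩
      cases σ
      · rw [d_false] at g1 g3
        refine ⟨S.h_eq_zero.1 ?_, g2, fun h => absurd h (by decide)⟩
        omega
      · rw [d_true] at g1 g3
        refine ⟨S.h_eq_zero.1 ?_, g2, fun _ => S.h_eq_zero.1 ?_⟩
        · omega
        · omega
    have h3 : ∀ l : List S.B,
        ∑' s, ind (S.gp σ l s ∧ S.h l ≤ M ∧ ¬ (S.h s + d σ ≤ S.h l ∧ 0 < S.h s + d σ)) *
          (S.w l * S.w s * S.Lam (S.del σ l s)) ≤ ind (S.h l ≤ M) * (S.w l * S.Lam (S.h l)) := by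
      intro l
      rw [tsum_eq_single ([] : List S.B) (fun s hs => by
        rw [ind_false (fun h => hs (key l s h).1), zero_mul])]
      by_cases hk : S.gp σ l [] ∧ S.h l ≤ M ∧ ¬ (S.h [] + d σ ≤ S.h l ∧ 0 < S.h [] + d σ)
      · rw [ind_true hk, one_mul, S.w_nil, mul_one]
        obtain ⟨-, k2, k3⟩ := key l [] hk
        rw [ind_true k2, one_mul]
        refine mul_le_mul' le_rfl (S.Lam_anti ?_)
        unfold del
        rw [S.h_nil]
        cases σ
        · rw [d_false]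
          omega
        · rw [k3 rfl, S.h_nil]
          exact Nat.zero_le _
      · rw [ind_false hk, zero_mul]
        exact zero_le
    exact (ENNReal.tsum_le_tsum h3).trans (AU_K0 S M)
  calc AU_T S σ M ≤ _ := h1
    _ ≤ S.K0 M + S.K0 M * ∑ q ∈ range (M + 1), S.mt σ q 0 := add_le_add h2 (AU_main hG σ M)
    _ = _ := by ring

theorem gyp_a_mul_U {K : ℕ} (hG : S.Gyp K) (m : ℕ) : S.a m * S.U m ≤ S.K0 m ^ 2 * (2 + S.Vp m) := by
  calc S.a m * S.U m ≤ S.K0 m * (AU_T S true m + AU_T S false m) := AU_aU hG m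
    _ ≤ S.K0 m * (S.K0 m * (1 + ∑ q ∈ range (m + 1), S.mt true q 0) +
          S.K0 m * (1 + ∑ q ∈ range (m + 1), S.mt false q 0)) :=
        mul_le_mul' le_rfl (add_le_add (AU_T_le hG true m) (AU_T_le hG false m))
    _ = S.K0 m ^ 2 * (2 + S.Vp m) := by
        unfold Vp m2
        rw [Finset.sum_add_distrib]
        ring

end Sys

end Pool.Agent.HEP
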