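import Pool.Agent.PLF.It
import Pool.Agent.PLF.AU
import Pool.Agent.HEP.ChSum

/-!
Project PLF, module F0: THE MASS OF THE CHAINS OF STRANDS is at most `exp (C (1 + log n) ^ A)`.

PAPER PROOF. For `m ≤ n`, `n ≥ 1`: `m ≤ 2 ^ k`, `k = Nat.log 2 n + 1`, `Vp m ≤ Vp (2 ^ k) ≤ C (k + 1) ^ A` (`it_le`, monotone), `K0 m ≤ 1 + log (n + 1)` (`K0_le`), `Nat.log 2 n ≤ 2 log n` (see `Ch.log_bound` of HEP/ChAll). By `gyp_a_mul_U`: `a m * U m ≤ ofReal ℓ`, `ℓ = C' (1 + log n) ^ A'`, `ℓ ≥ 1`.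
`Ch.chm_le hG.anti hn hℓ ha` (HEP/ChSum): `chm n ≤ ofReal (exp (137 * ℓ * (Nat.log 2 n + 1) ^ 3))`.
-/

namespace Pool.Agent.HEP

open scoped ENNReal
open Finset

private lemma f0_log {n : ℕ} (hn : 1 ≤ n) : (Nat.log 2 n : ℝ) ≤ 2 * Real.log n := by
  have h2 : (Nat.log 2 n : ℝ) * Real.log 2 ≤ Real.log n := by
    rw [← Real.log_pow]
    refine Real.log_le_log (by positivity) ?_
    exact_mod_cast Nat.pow_log_le_self 2 (by omega : n ≠ 0)
  have h3 : (1 / 2 : ℝ) ≤ Real.log 2 := by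
    have := Real.log_two_gt_d9
    linarith
  have h4 : (0 : ℝ) ≤ (Nat.log 2 n : ℝ) := Nat.cast_nonneg _
  nlinarith

private lemma f0_Vp_mono (S : Sys) : Monotone S.Vp := by
  intro M N h
  unfold Sys.Vp
  exact Finset.sum_le_sum_of_subset (Finset.range_mono (by omega))

/-- **The mass of the chains of strands, quasi-polynomial bound.** -/
theorem gyp_chm (K κ : ℕ) : ∃ C A : ℝ, 0 < C ∧ 0 < A ∧ ∀ (S : Sys) (n : ℕ), 1 ≤ n → S.Gyp K → S.Reg κ →
    S.chm n ≤ ENNReal.ofReal (Real.exp (C * (1 + Real.log n) ^ A)) := by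
  obtain ⟨C0, A0, hC0, hA0, hit⟩ := Sys.it_le K κ
  refine ⟨137 * (2 + C0) * 2 ^ (A0 + 5), A0 + 5, by positivity, by positivity, ?_⟩
  intro S n hn hG hR
  have hn1 : (1 : ℝ) ≤ n := by exact_mod_cast hn
  have hn0 : (0 : ℝ) < n := by linarith
  have hlog0 : 0 ≤ Real.log n := Real.log_nonneg hn1
  have hlg := f0_log hn
  have hlg0 : (0 : ℝ) ≤ (Nat.log 2 n : ℝ) := Nat.cast_nonneg _
  set t := 1 + Real.log n with ht
  set s := 2 * t with hs
  have hs1 : 1 ≤ s := by rw [hs, ht]; linarith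
  have hs0 : 0 < s := by linarith
  have hsA : 1 ≤ s ^ A0 := Real.one_le_rpow hs1 hA0.le
  have hsA2 : 1 ≤ s ^ (A0 + 2) := Real.one_le_rpow hs1 (by linarith)
  -- the constant
  have hℓ : 1 ≤ (2 + C0) * s ^ (A0 + 2) := by nlinarith
  have ha : ∀ m ≤ n, S.a m * S.U m ≤ ENNReal.ofReal ((2 + C0) * s ^ (A0 + 2)) := by
    intro m hm
    have hV : S.Vp m ≤ ENNReal.ofReal (C0 * s ^ A0) := by
      have h1 : m ≤ 2 ^ (Nat.log 2 n + 1) :=
        hm.trans (Nat.lt_pow_succ_log_self (by norm_num) n).le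
      refine (f0_Vp_mono S h1).trans ((hit S hG hR _).trans (ENNReal.ofReal_le_ofReal ?_))
      have h2 : ((Nat.log 2 n + 1 : ℕ) : ℝ) + 1 ≤ s := by
        push_cast
        rw [hs, ht]
        linarith
      exact mul_le_mul_of_nonneg_left (Real.rpow_le_rpow (by positivity) h2 hA0.le) hC0.le
    have hK : S.K0 m ≤ ENNReal.ofReal s := by
      refine (S.K0_le m).trans (ENNReal.ofReal_le_ofReal ?_)
      have h1 : Real.log ((m : ℝ) + 1) ≤ Real.log (2 * n) := by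
        refine Real.log_le_log (by positivity) ?_
        have : (m : ℝ) ≤ n := by exact_mod_cast hm
        linarith
      rw [Real.log_mul (by norm_num) hn0.ne'] at h1
      have h3 : Real.log 2 ≤ 1 := by
        have := Real.log_two_lt_d9
        linarith
      rw [hs, ht]
      linarith
    have h5 : (2 : ℝ≥0∞) + S.Vp m ≤ ENNReal.ofReal (2 + C0 * s ^ A0) := by
      rw [ENNReal.ofReal_add (by norm_num) (by positivity)]
      refine add_le_add (le_of_eq ?_) hV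
      norm_num
    calc S.a m * S.U m ≤ S.K0 m ^ 2 * (2 + S.Vp m) := Sys.gyp_a_mul_U hG m
      _ ≤ ENNReal.ofReal s ^ 2 * ENNReal.ofReal (2 + C0 * s ^ A0) := by gcongr
      _ = ENNReal.ofReal (s ^ 2 * (2 + C0 * s ^ A0)) := by
        rw [← ENNReal.ofReal_pow hs0.le, ← ENNReal.ofReal_mul (by positivity)]
      _ ≤ ENNReal.ofReal ((2 + C0) * s ^ (A0 + 2)) := by
        refine ENNReal.ofReal_le_ofReal ?_
        rw [Real.rpow_add hs0, Real.rpow_two]
        have : 0 < s ^ 2 := by positivity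
        nlinarith
  refine (Ch.chm_le hG.anti hn hℓ ha).trans (ENNReal.ofReal_le_ofReal (Real.exp_le_exp.2 ?_))
  have h6 : (Nat.log 2 n : ℝ) + 1 ≤ s := by
    rw [hs, ht]
    linarith
  calc 137 * ((2 + C0) * s ^ (A0 + 2)) * ((Nat.log 2 n : ℝ) + 1) ^ 3
      ≤ 137 * ((2 + C0) * s ^ (A0 + 2)) * s ^ 3 := by gcongr
    _ = 137 * (2 + C0) * (s ^ (A0 + 2) * s ^ (3 : ℝ)) := by
      rw [show (3 : ℝ) = ((3 : ℕ) : ℝ) by norm_num, Real.rpow_natCast]
      ring
    _ = 137 * (2 + C0) * s ^ (A0 + 5) := by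
      rw [← Real.rpow_add hs0]
      congr 2
      ring
    _ = 137 * (2 + C0) * 2 ^ (A0 + 5) * t ^ (A0 + 5) := by
      rw [hs, Real.mul_rpow (by norm_num) (by rw [ht]; linarith)]
      ring

end Pool.Agent.HEP
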