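import Pool.Agent.PLF.Low

/-!
Project PLF, module LowSum: SUM OVER THE LOWER PAIRS. `LS τ j`: long leg `x ++ [c]`, short leg `s`, then the block `e` of the short leg over `j`.

PAPER PROOF. The sum over `e` is `Lam (j - h s)` (`tsum_cross` of HEP/RnCut, as `h s ≤ j`). The rest: `(x, c)` is a word `l = x ++ [c]` (`tsum_snoc`, drop the empty word), `w (x ++ [c]) = w x * wt c`,
`FP (h s + d τ) l` and `j < h l` by `low_fp`. Group by `r = h s ∈ range (j + 1)`: `∑_(r ≤ j) Lam (j - r) * mt τ r j`.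
-/

namespace Pool.Agent.HEP

open scoped ENNReal
open Finset

namespace Sys

variable (S : Sys)

/-- The sum over the lower pairs (type `τ`) with both crossing blocks. -/
noncomputable def LS (τ : Bool) (j : ℕ) : ℝ≥0∞ :=
  ∑' x, ∑' c, ∑' s, ∑' e, ind (S.gp τ (x ++ [c]) s ∧ S.h x < S.h s + d τ ∧ S.h s ≤ j ∧ j < S.h x + S.ht c ∧ j < S.h s + S.ht e) *
    (S.w x * S.wt c * (S.w s * S.wt e))

private lemma LowSum_e (τ : Bool) (j : ℕ) (x : List S.B) (c : S.B) (s : List S.B) :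
    ∑' e, ind (S.gp τ (x ++ [c]) s ∧ S.h x < S.h s + d τ ∧ S.h s ≤ j ∧ j < S.h x + S.ht c ∧ j < S.h s + S.ht e) *
      (S.w x * S.wt c * (S.w s * S.wt e)) ≤
    ind (S.gp τ (x ++ [c]) s ∧ S.FP (S.h s + d τ) (x ++ [c]) ∧ S.h s ≤ j ∧ j < S.h (x ++ [c])) *
      (S.w (x ++ [c]) * S.w s) * S.Lam (j - S.h s) := by
  by_cases hP : S.gp τ (x ++ [c]) s ∧ S.h x < S.h s + d τ ∧ S.h s ≤ j ∧ j < S.h x + S.ht c
  · obtain ⟨g1, g2, g3, g4⟩ := hP
    have hf := low_fp g2 g4 g3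
    rw [ind_true ⟨g1, hf.1, g3, hf.2⟩, one_mul, ← S.tsum_cross j s g3, ← ENNReal.tsum_mul_left]
    refine le_of_eq (tsum_congr fun e => ?_)
    rw [ind_congr (show (S.gp τ (x ++ [c]) s ∧ S.h x < S.h s + d τ ∧ S.h s ≤ j ∧ j < S.h x + S.ht c ∧
      j < S.h s + S.ht e) ↔ j < S.h s + S.ht e from ⟨fun h => h.2.2.2.2, fun h => ⟨g1, g2, g3, g4, h⟩⟩)]
    have hw : S.w (x ++ [c]) = S.w x * S.wt c := by
      rw [S.w_append, S.w_cons]
      simp [Alph.w]
    rw [hw]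
    ring
  · refine le_of_eq_of_le ?_ bot_le
    rw [ENNReal.tsum_eq_zero.2]
    · rfl
    · intro e
      rw [ind_false (fun h => hP ⟨h.1, h.2.1, h.2.2.1, h.2.2.2.1⟩), zero_mul]

private lemma LowSum_sum {p : ℕ → Prop} (j m : ℕ) (X : ℝ≥0∞) (f : ℕ → ℝ≥0∞) :
    ind (p m ∧ m ≤ j) * X * f m = ∑ r ∈ range (j + 1), ind (p r ∧ m = r) * X * f r := by
  by_cases hm : m ≤ j
  · rw [Finset.sum_eq_single m]
    · rw [ind_congr (show (p m ∧ m ≤ j) ↔ (p m ∧ m = m) from ⟨fun h => ⟨h.1, rfl⟩, fun h => ⟨h.1, hm⟩⟩)]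
    · intro r _ hr
      rw [ind_false (fun h => hr h.2.symm), zero_mul, zero_mul]
    · intro h
      exact absurd (Finset.mem_range.2 (by omega)) h
  · rw [ind_false (fun h => hm h.2), zero_mul, zero_mul, Finset.sum_eq_zero]
    intro r hr
    rw [ind_false (fun h => hm (by have := Finset.mem_range.1 hr; omega)), zero_mul, zero_mul]

theorem LS_le (τ : Bool) (j : ℕ) : S.LS τ j ≤ ∑ r ∈ range (j + 1), S.mt τ r j * S.Lam (j - r) := by
  calc S.LS τ j ≤ ∑' x, ∑' c, ∑' s, ind (S.gp τ (x ++ [c]) s ∧ S.FP (S.h s + d τ) (x ++ [c]) ∧ S.h s ≤ j ∧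
        j < S.h (x ++ [c])) * (S.w (x ++ [c]) * S.w s) * S.Lam (j - S.h s) := by
        unfold LS
        exact ENNReal.tsum_le_tsum fun x => ENNReal.tsum_le_tsum fun c => ENNReal.tsum_le_tsum fun s =>
          S.LowSum_e τ j x c s
    _ ≤ ∑' l, ∑' s, ind (S.gp τ l s ∧ S.FP (S.h s + d τ) l ∧ S.h s ≤ j ∧ j < S.h l) *
        (S.w l * S.w s) * S.Lam (j - S.h s) := by
        rw [Alph.tsum_snoc (fun l => ∑' s, ind (S.gp τ l s ∧ S.FP (S.h s + d τ) l ∧ S.h s ≤ j ∧ j < S.h l) *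
          (S.w l * S.w s) * S.Lam (j - S.h s))]
        exact le_add_self
    _ = ∑' l, ∑' s, ∑ r ∈ range (j + 1), ind (S.gp τ l s ∧ S.FP (r + d τ) l ∧ S.h s = r ∧ j < S.h l) *
        (S.w l * S.w s) * S.Lam (j - r) := by
        refine tsum_congr fun l => tsum_congr fun s => ?_
        have := LowSum_sum (p := fun r => S.gp τ l s ∧ S.FP (r + d τ) l ∧ j < S.h l) j (S.h s)
          (S.w l * S.w s) (fun r => S.Lam (j - r))
        rw [ind_congr (show (S.gp τ l s ∧ S.FP (S.h s + d τ) l ∧ S.h s ≤ j ∧ j < S.h l) ↔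
          ((S.gp τ l s ∧ S.FP (S.h s + d τ) l ∧ j < S.h l) ∧ S.h s ≤ j) by tauto), this]
        refine Finset.sum_congr rfl fun r _ => ?_
        rw [ind_congr (show ((S.gp τ l s ∧ S.FP (r + d τ) l ∧ j < S.h l) ∧ S.h s = r) ↔
          (S.gp τ l s ∧ S.FP (r + d τ) l ∧ S.h s = r ∧ j < S.h l) by tauto)]
    _ = ∑ r ∈ range (j + 1), S.mt τ r j * S.Lam (j - r) := by
        have h1 : ∀ l, ∑' s, ∑ r ∈ range (j + 1), ind (S.gp τ l s ∧ S.FP (r + d τ) l ∧ S.h s = r ∧ j < S.h l) *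
            (S.w l * S.w s) * S.Lam (j - r) = ∑ r ∈ range (j + 1), ∑' s, ind (S.gp τ l s ∧ S.FP (r + d τ) l ∧
              S.h s = r ∧ j < S.h l) * (S.w l * S.w s) * S.Lam (j - r) := fun l =>
          Summable.tsum_finsetSum (fun _ _ => ENNReal.summable)
        rw [tsum_congr h1, Summable.tsum_finsetSum (fun _ _ => ENNReal.summable)]
        refine Finset.sum_congr rfl fun r _ => ?_
        unfold mt
        rw [← ENNReal.tsum_mul_right]
        refine tsum_congr fun l => ?_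
        rw [ENNReal.tsum_mul_right]

theorem LS_add (j : ℕ) : S.LS true j + S.LS false j ≤ S.LP j := by
  refine (add_le_add (S.LS_le true j) (S.LS_le false j)).trans (le_of_eq ?_)
  unfold LP m2
  rw [← Finset.sum_add_distrib]
  refine Finset.sum_congr rfl fun r _ => ?_
  rw [add_mul]

end Sys

end Pool.Agent.HEP
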