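import Pool.Agent.PLF.Win
import Pool.Agent.PLF.LowSum

/-!
Project PLF, module Bad: THE PAIRS WITH A SMALL GAP: `bm σ g m M ≤ (U g + 2 K g b g) * LP j` for every `j ≤ m`.

PAPER PROOF. Put `Q = M + d σ`. Fix `s` with `m < h s ≤ M`. By `tsum_pre` (`k = h s + d σ ≤ k' = Q`):
`∑' l, ind (FP (h s + d σ) l) * (Φ l s * w l) = ∑' X, ind (FP Q X) * (Φ (pre (h s + d σ) X) s * w X)`, `Φ l s = ind (gp σ l s ∧ ¬ os σ g l s)`.
Sum over `s`: decompose `s = s' ++ e :: s''` at the threshold `j` (`tsum_cr`; `j < h s` as `j ≤ m < h s`), and `X = x ++ c :: X'` at `j` (`tsum_cr`; `j < h X` as `FP Q X` and `Q ≥ h s > j`; if no `s` exists the sum is 0, so assume `m < M`).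
For fixed `x, c, X', s', e`: if `Φ (pre (h s + d σ) X) s ≠ 0` for some `s''` then `pre (h s + d σ) X` starts with `x ++ [c]` (it is a prefix of `X` in first passage over `h s + d σ > j`: `pre (h s + d σ) (x ++ c :: X') = x ++ c :: pre (h s + d σ - h (x ++ [c])) X'`)
so that `low_t` / `low_f` give the event `Low` for the lower pair, which does not contain `s''`: `Low = (h x < h s' + d σ ∧ gp σ (x ++ [c]) s') ∨ (h s' < h x + d (!σ) ∧ gp (!σ) (s' ++ [e]) x)` [`σ = true`: `h x ≤ h s'`, resp. `h s' < h x`; `σ = false`: `h x < h s'`, resp. `h s' ≤ h x`].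
So `∑' s'', .. ≤ ind Low * (U g + 2 K g b g)` by `winp_le` with `y = s' ++ [e]`, `X = x ++ c :: X'` (`gp` gives `os σ 1` at the end).
Then the sum over `X'` of `ind (FP Q (x ++ c :: X')) * w X'` is at most 1 (`tsum_FP_ext` with `l = x ++ [c]`, `FP (j + 1) (x ++ [c])` by `FP_snoc`, `j + 1 ≤ Q`). What remains: `∑ x c s' e, ind (h x ≤ j < h x + ht c, h s' ≤ j < h s' + ht e, Low) * w x * wt c * w s' * wt e ≤ LS σ j + LS (!σ) j`
(first part of `Low`: `LS σ j` with `(x, c, s, e) = (x, c, s', e)`; second part: `LS (!σ) j` with `(x, c, s, e) = (s', e, x, c)`: `ENNReal.tsum_comm`), `LS_add`.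
-/

namespace Pool.Agent.HEP

open scoped ENNReal
open Finset

namespace Sys

variable {S : Sys}

private lemma pre_cons_app {k : ℕ} {x : List S.B} (c : S.B) (X' : List S.B) (hx : S.h x < k) :
    S.pre k (x ++ c :: X') = x ++ c :: S.pre (k - S.h x - S.ht c) X' := by
  induction x generalizing k with
  | nil =>
    rw [S.h_nil] at hx ⊢
    simp only [List.nil_append]
    rw [Alph.pre, if_neg (by omega), Nat.sub_zero]
  | cons a x ih =>
    rw [S.h_cons] at hx ⊢
    simp only [List.cons_append]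
    rw [Alph.pre, if_neg (by omega), ih (by omega)]
    congr 4
    omega

/-- The lower event. -/
private def Low (σ : Bool) (x s : List S.B) (c e : S.B) : Prop :=
  (S.h x < S.h s + d σ ∧ S.gp σ (x ++ [c]) s) ∨ (S.h s < S.h x + d (!σ) ∧ S.gp (!σ) (s ++ [e]) x)

private lemma low_of {K : ℕ} (hG : S.Gyp K) {σ : Bool} {j : ℕ} {x X' s' s'' : List S.B} {c e : S.B}
    (h : S.gp σ (S.pre (S.h (s' ++ e :: s'') + d σ) (x ++ c :: X')) (s' ++ e :: s''))
    (hX : S.h (s' ++ e :: s'') + d σ ≤ S.h (x ++ c :: X')) (h1 : S.h x ≤ j) (h2 : j < S.h x + S.ht c)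
    (h3 : S.h s' ≤ j) (h4 : j < S.h s' + S.ht e) : Low σ x s' c e := by
  have hs : S.h s' + S.ht e ≤ S.h (s' ++ e :: s'') := by
    rw [S.h_append, S.h_cons]; omega
  have hF := (S.pre_spec hX).1
  rw [pre_cons_app c X' (by omega)] at h hF
  cases σ with
  | true =>
    rcases low_t hG h hF h1 h2 h3 h4 with ⟨a, b⟩ | ⟨a, b⟩
    · exact Or.inl ⟨by rw [d_true]; omega, b⟩
    · exact Or.inr ⟨by simp only [Bool.not_true, d_false]; omega, b⟩
  | false =>
    rw [d_false, Nat.add_zero] at hF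
    rcases low_f hG h hF h1 h2 h3 h4 with ⟨a, b⟩ | ⟨a, b⟩
    · exact Or.inl ⟨by rw [d_false]; omega, b⟩
    · exact Or.inr ⟨by simp only [Bool.not_false, d_true]; omega, b⟩

/-- The inner sum. -/
private lemma inner_le {K : ℕ} (hG : S.Gyp K) (σ : Bool) (g m M j : ℕ) {x X' s' : List S.B} {c e : S.B}
    (hX : S.FP (M + d σ) (x ++ c :: X')) (h1 : S.h x ≤ j) (h2 : j < S.h x + S.ht c)
    (h3 : S.h s' ≤ j) (h4 : j < S.h s' + S.ht e) :
    ∑' s'', ind (m < S.h (s' ++ e :: s'') ∧ S.h (s' ++ e :: s'') ≤ M) *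
      (ind (S.gp σ (S.pre (S.h (s' ++ e :: s'') + d σ) (x ++ c :: X')) (s' ++ e :: s'') ∧
        ¬ S.os σ g (S.pre (S.h (s' ++ e :: s'') + d σ) (x ++ c :: X')) (s' ++ e :: s'')) * S.w s'') ≤
      ind (Low σ x s' c e) * (S.U g + 2 * K * g * S.b g) := by
  by_cases hL : Low σ x s' c e
  · rw [ind_true hL, one_mul]
    refine le_trans (ENNReal.tsum_le_tsum fun s'' => ?_) (winp_le hG σ g (x ++ c :: X') (s' ++ [e]) (by simp))
    have e1 : s' ++ [e] ++ s'' = s' ++ e :: s'' := by simp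
    rw [e1, ← mul_assoc, ← ind_and]
    refine mul_le_mul' (ind_mono ?_) le_rfl
    rintro ⟨-, a, b⟩
    exact ⟨a.2.2 _ [] (by simp), b⟩
  · rw [ind_false hL, zero_mul]
    refine le_of_eq (ENNReal.tsum_eq_zero.2 fun s'' => ?_)
    rw [← mul_assoc, ← ind_and, ind_false, zero_mul]
    rintro ⟨a, b, -⟩
    exact hL (low_of hG b (by have := hX.1; omega) h1 h2 h3 h4)

private lemma tot_low (σ : Bool) (j : ℕ) :
    ∑' x, ∑' c, ∑' s, ∑' e, ind (S.h x ≤ j ∧ j < S.h x + S.ht c) * (ind (S.h s ≤ j ∧ j < S.h s + S.ht e) *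
      (ind (Low σ x s c e) * (S.w x * S.wt c * (S.w s * S.wt e)))) ≤ S.LS σ j + S.LS (!σ) j := by
  have h2 : S.LS (!σ) j = ∑' x, ∑' c, ∑' s, ∑' e, ind (S.gp (!σ) (s ++ [e]) x ∧ S.h s < S.h x + d (!σ) ∧ S.h x ≤ j ∧
      j < S.h s + S.ht e ∧ j < S.h x + S.ht c) * (S.w s * S.wt e * (S.w x * S.wt c)) := by
    unfold LS
    have e1 : ∀ s : List S.B, ∑' e, ∑' x, ∑' c, ind (S.gp (!σ) (s ++ [e]) x ∧ S.h s < S.h x + d (!σ) ∧ S.h x ≤ j ∧
      j < S.h s + S.ht e ∧ j < S.h x + S.ht c) * (S.w s * S.wt e * (S.w x * S.wt c)) =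
      ∑' x, ∑' c, ∑' e, ind (S.gp (!σ) (s ++ [e]) x ∧ S.h s < S.h x + d (!σ) ∧ S.h x ≤ j ∧
      j < S.h s + S.ht e ∧ j < S.h x + S.ht c) * (S.w s * S.wt e * (S.w x * S.wt c)) := by
      intro s
      rw [ENNReal.tsum_comm]
      refine tsum_congr fun x => ?_
      rw [ENNReal.tsum_comm]
    rw [tsum_congr e1, ENNReal.tsum_comm]
    refine tsum_congr fun x => ?_
    rw [ENNReal.tsum_comm]
  rw [h2]
  unfold LS
  rw [← ENNReal.tsum_add]
  refine ENNReal.tsum_le_tsum fun x => ?_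
  rw [← ENNReal.tsum_add]
  refine ENNReal.tsum_le_tsum fun c => ?_
  rw [← ENNReal.tsum_add]
  refine ENNReal.tsum_le_tsum fun s => ?_
  rw [← ENNReal.tsum_add]
  refine ENNReal.tsum_le_tsum fun e => ?_
  rw [← mul_assoc, ← mul_assoc, ← ind_and, ← ind_and, mul_comm (S.w s * S.wt e) (S.w x * S.wt c), ← add_mul]
  refine mul_le_mul' ((ind_mono ?_).trans (ind_or_le _ _)) le_rfl
  rintro ⟨⟨⟨a1, a2⟩, a3, a4⟩, h | h⟩
  · exact Or.inl ⟨h.2, h.1, a3, a2, a4⟩
  · exact Or.inr ⟨h.2, h.1, a1, a4, a2⟩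

theorem bad_le {K : ℕ} (hG : S.Gyp K) (σ : Bool) (g m M j : ℕ) (hj : j ≤ m) :
    S.bm σ g m M ≤ (S.U g + 2 * K * g * S.b g) * S.LP j := by
  set Q := M + d σ with hQ
  set B := S.U g + 2 * K * g * S.b g with hB
  -- the function which is summed
  set Φ : List S.B → List S.B → ℝ≥0∞ := fun l s => ind (S.gp σ l s ∧ ¬ S.os σ g l s) with hΦ
  have h1 : S.bm σ g m M ≤ ∑' X, ∑' s, ind (j < S.h X) * (ind (j < S.h s) * (ind (S.FP Q X) *
      (ind (m < S.h s ∧ S.h s ≤ M) * (Φ (S.pre (S.h s + d σ) X) s * (S.w X * S.w s))))) := by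
    unfold bm
    rw [ENNReal.tsum_comm (f := fun X s => ind (j < S.h X) * (ind (j < S.h s) * (ind (S.FP Q X) *
      (ind (m < S.h s ∧ S.h s ≤ M) * (Φ (S.pre (S.h s + d σ) X) s * (S.w X * S.w s))))))]
    refine ENNReal.tsum_le_tsum fun s => ?_
    by_cases hs : m < S.h s ∧ S.h s ≤ M
    · have e1 := S.tsum_pre (k := S.h s + d σ) (k' := Q) (by omega) (fun l => Φ l s * S.w s)
      calc ∑' l, ind (S.gp σ l s ∧ ¬ S.os σ g l s ∧ S.FP (S.h s + d σ) l ∧ m < S.h s ∧ S.h s ≤ M) * (S.w l * S.w s)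
          ≤ ∑' l, ind (S.FP (S.h s + d σ) l) * (Φ l s * S.w s * S.w l) := by
            refine ENNReal.tsum_le_tsum fun l => ?_
            have e2 : ind (S.FP (S.h s + d σ) l) * (Φ l s * S.w s * S.w l) =
                ind (S.FP (S.h s + d σ) l ∧ (S.gp σ l s ∧ ¬ S.os σ g l s)) * (S.w l * S.w s) := by
              rw [ind_and]; simp only [hΦ]; ring
            rw [e2]
            refine mul_le_mul' (ind_mono fun h => ⟨h.2.2.1, h.1, h.2.1⟩) le_rfl
        _ = ∑' X, ind (S.FP Q X) * (Φ (S.pre (S.h s + d σ) X) s * S.w s * S.w X) := e1.symm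
        _ ≤ _ := by
            refine ENNReal.tsum_le_tsum fun X => ?_
            by_cases hX : S.FP Q X
            · rw [ind_true (show j < S.h s by omega), ind_true hs, one_mul, one_mul,
                ind_true (show j < S.h X by have := hX.1; omega), one_mul]
              exact le_of_eq (by ring)
            · rw [ind_false hX, zero_mul]; exact bot_le
    · refine le_of_eq_of_le (ENNReal.tsum_eq_zero.2 fun l => ?_) bot_le
      rw [ind_false (fun h => hs h.2.2.2), zero_mul]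
  refine h1.trans ?_
  -- decompose `X`
  have h2 : ∀ X : List S.B, ∑' s, ind (j < S.h X) * (ind (j < S.h s) * (ind (S.FP Q X) *
      (ind (m < S.h s ∧ S.h s ≤ M) * (Φ (S.pre (S.h s + d σ) X) s * (S.w X * S.w s))))) =
      ind (j < S.h X) * ∑' s, ind (j < S.h s) * (ind (S.FP Q X) *
      (ind (m < S.h s ∧ S.h s ≤ M) * (Φ (S.pre (S.h s + d σ) X) s * (S.w X * S.w s)))) := fun X => ENNReal.tsum_mul_left
  rw [tsum_congr h2, S.tsum_cr j (fun X => ∑' s, ind (j < S.h s) * (ind (S.FP Q X) *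
      (ind (m < S.h s ∧ S.h s ≤ M) * (Φ (S.pre (S.h s + d σ) X) s * (S.w X * S.w s)))))]
  have h3 : ∀ (x : List S.B) (c : S.B), ind (S.h x ≤ j ∧ j < S.h x + S.ht c) *
      ∑' X', (∑' s, ind (j < S.h s) * (ind (S.FP Q (x ++ c :: X')) * (ind (m < S.h s ∧ S.h s ≤ M) *
        (Φ (S.pre (S.h s + d σ) (x ++ c :: X')) s * (S.w (x ++ c :: X') * S.w s))))) ≤
      B * ∑' s, ∑' e, ind (S.h x ≤ j ∧ j < S.h x + S.ht c) * (ind (S.h s ≤ j ∧ j < S.h s + S.ht e) *
        (ind (Low σ x s c e) * (S.w x * S.wt c * (S.w s * S.wt e)))) := by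
    intro x c
    by_cases hx : S.h x ≤ j ∧ j < S.h x + S.ht c
    swap
    · rw [ind_false hx, zero_mul]; exact bot_le
    rw [ind_true hx, one_mul]
    simp only [one_mul]
    by_cases hmM : m < M
    swap
    · refine le_of_eq_of_le (ENNReal.tsum_eq_zero.2 fun X' => ENNReal.tsum_eq_zero.2 fun s => ?_) bot_le
      rw [ind_false (p := m < S.h s ∧ S.h s ≤ M) (by omega), zero_mul, mul_zero, mul_zero]
    have h4 : ∀ X' : List S.B, (∑' s, ind (j < S.h s) * (ind (S.FP Q (x ++ c :: X')) * (ind (m < S.h s ∧ S.h s ≤ M) *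
        (Φ (S.pre (S.h s + d σ) (x ++ c :: X')) s * (S.w (x ++ c :: X') * S.w s))))) ≤
        (ind (S.FP Q (x ++ [c] ++ X')) * S.w X') * (B * ∑' s, ∑' e, ind (S.h s ≤ j ∧ j < S.h s + S.ht e) *
        (ind (Low σ x s c e) * (S.w x * S.wt c * (S.w s * S.wt e)))) := by
      intro X'
      have e0 : x ++ [c] ++ X' = x ++ c :: X' := by simp
      rw [e0]
      by_cases hX : S.FP Q (x ++ c :: X')
      swap
      · rw [ind_false hX, zero_mul, zero_mul]
        refine le_of_eq (ENNReal.tsum_eq_zero.2 fun s => ?_)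
        rw [zero_mul, mul_zero]
      rw [ind_true hX, one_mul]
      rw [S.tsum_cr j (fun s => 1 * (ind (m < S.h s ∧ S.h s ≤ M) *
        (Φ (S.pre (S.h s + d σ) (x ++ c :: X')) s * (S.w (x ++ c :: X') * S.w s))))]
      rw [← mul_assoc, mul_comm (S.w X') B, mul_assoc, ← ENNReal.tsum_mul_left, ← ENNReal.tsum_mul_left]
      refine ENNReal.tsum_le_tsum fun s => ?_
      rw [← ENNReal.tsum_mul_left, ← ENNReal.tsum_mul_left]
      refine ENNReal.tsum_le_tsum fun e => ?_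
      by_cases hs : S.h s ≤ j ∧ j < S.h s + S.ht e
      swap
      · rw [ind_false hs, zero_mul]; exact bot_le
      rw [ind_true hs, one_mul, one_mul]
      have h5 := inner_le hG σ g m M j hX hx.1 hx.2 hs.1 hs.2
      calc ∑' r, 1 * (ind (m < S.h (s ++ e :: r) ∧ S.h (s ++ e :: r) ≤ M) *
            (Φ (S.pre (S.h (s ++ e :: r) + d σ) (x ++ c :: X')) (s ++ e :: r) *
              (S.w (x ++ c :: X') * S.w (s ++ e :: r))))
          = ∑' r, (S.w (x ++ c :: X') * (S.w s * S.wt e)) * (ind (m < S.h (s ++ e :: r) ∧ S.h (s ++ e :: r) ≤ M) *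
            (ind (S.gp σ (S.pre (S.h (s ++ e :: r) + d σ) (x ++ c :: X')) (s ++ e :: r) ∧
              ¬ S.os σ g (S.pre (S.h (s ++ e :: r) + d σ) (x ++ c :: X')) (s ++ e :: r)) * S.w r)) := by
            refine tsum_congr fun r => ?_
            rw [S.w_append s, S.w_cons e]
            simp only [hΦ]
            ring
        _ = (S.w (x ++ c :: X') * (S.w s * S.wt e)) * ∑' r, (ind (m < S.h (s ++ e :: r) ∧ S.h (s ++ e :: r) ≤ M) *
            (ind (S.gp σ (S.pre (S.h (s ++ e :: r) + d σ) (x ++ c :: X')) (s ++ e :: r) ∧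
              ¬ S.os σ g (S.pre (S.h (s ++ e :: r) + d σ) (x ++ c :: X')) (s ++ e :: r)) * S.w r)) :=
            ENNReal.tsum_mul_left
        _ ≤ (S.w (x ++ c :: X') * (S.w s * S.wt e)) * (ind (Low σ x s c e) * B) := mul_le_mul' le_rfl h5
        _ = _ := by
            rw [S.w_append x, S.w_cons c]
            ring
    refine (ENNReal.tsum_le_tsum h4).trans ?_
    rw [ENNReal.tsum_mul_right]
    have h6 : ∑' X', ind (S.FP Q (x ++ [c] ++ X')) * S.w X' = 1 := by
      refine S.tsum_FP_ext (k := j + 1) (S.FP_snoc.2 ⟨by omega, by omega⟩) ?_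
      omega
    rw [h6, one_mul]
  refine (ENNReal.tsum_le_tsum fun x => ENNReal.tsum_le_tsum fun c => h3 x c).trans ?_
  simp_rw [ENNReal.tsum_mul_left]
  refine mul_le_mul' le_rfl ?_
  have h7 := tot_low (S := S) σ j
  simp_rw [ENNReal.tsum_mul_left] at h7
  refine h7.trans (le_trans ?_ (S.LS_add j))
  cases σ with
  | true => simp
  | false => simp [add_comm]

end Sys

end Pool.Agent.HEP
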