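import Pool.Agent.PLF.Pre

/-!
Project PLF, module Good: THE PAIRS WITH A LARGE GAP. For every `q ≥ 1`, `g ≥ 1`: `g * (mass of the pairs with gap ≥ g of level q) ≤ 2 K`.

PAPER PROOF. Write `D` for the sum in `gap_le`. Split according to `h l - d σ = q` or `q < h l - d σ` (`good` implies `h s ≤ h l - d σ`).
(EQ) `h l - d σ = q`, `q ≥ 1`: `h l = q + d σ`; by `Gyp.gap` with `N = q + d σ`: `g * (..) ≤ K * b N ≤ K` (`b_le_one`).
(ST) Claim: for every `N`: `g * ∑' l, ∑' s, ind (good σ g l s ∧ FP (q + d σ) l ∧ h s = q ∧ q < h l - d σ ∧ h l ≤ N) * (w l * w s) ≤ K`. Multiply by `b N` (`≠ 0`, `≠ ⊤`): for `l` in the sum `b N ≤ b (N - h l) = ∑' r, ind (h r = N - h l) * w r` (`anti`, definition of `b`);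
by `Gyp.ext`: `good σ g (l ++ r) s`, and `h (l ++ r) = N`. So `b N * (sum) ≤ ∑' l, ind (FP (q + d σ) l) * ∑' r, (∑' s, ind (good σ g (l ++ r) s ∧ h (l ++ r) = N ∧ h s = q) * (w (l ++ r) * w s))
= ∑' X, ind (q + d σ ≤ h X) * (∑' s, ..) ≤ ∑' X, ∑' s, ind (good σ g X s ∧ h X = N ∧ h s = q) * (w X * w s)` (`tsum_split`), and `g * ` this is `≤ K * b N` (`Gyp.gap`). Cancel `b N`.
Then let `N → ∞`: the sum without `h l ≤ N` is the supremum over `N` (monotone convergence). Easiest in `ℝ≥0∞`: `ENNReal.tsum_eq_iSup_sum`-type argument, or: `g * ∑' l, F l` where `F l = ∑' s, ..`; for each finite set `T` of words choose `N` = max of the heights in `T`, so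
`g * ∑ l ∈ T, F l ≤ K`; then `ENNReal.tsum_eq_iSup_sum` and `iSup_le` (after `ENNReal.tsum_mul_left`).
-/

namespace Pool.Agent.HEP

open scoped ENNReal
open Finset

namespace Sys

variable {S : Sys}

theorem Reg.b_ne_zero {κ : ℕ} (h : S.Reg κ) (N : ℕ) : S.b N ≠ 0 := by
  rcases Nat.eq_zero_or_pos N with rfl | hN
  · rw [S.b_zero]
    exact one_ne_zero
  · intro h0
    have h1 := h N hN
    rw [h0, mul_zero] at h1
    exact S.U_ne_zero N (le_antisymm h1 bot_le)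

/-- The strict part of the sum, long legs of height at most `N`. -/
private theorem Good_st {K : ℕ} (hG : S.Gyp K) (hb : ∀ N, S.b N ≠ 0) (σ : Bool) (g q : ℕ) (hg : 1 ≤ g)
    (hq : 1 ≤ q) (N : ℕ) :
    (g : ℝ≥0∞) * ∑' l, ind (S.h l ≤ N) * (∑' s, ind (S.good σ g l s ∧ S.FP (q + d σ) l ∧ S.h s = q ∧
      q < S.h l - d σ) * (S.w l * S.w s)) ≤ K := by
  set G : List S.B → ℝ≥0∞ := fun X => ∑' s, ind (S.good σ g X s ∧ S.h X = N ∧ S.h s = q) * (S.w X * S.w s)
    with hGd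
  have h1 : ∀ l : List S.B, S.b N * (ind (S.h l ≤ N) * (∑' s, ind (S.good σ g l s ∧ S.FP (q + d σ) l ∧
      S.h s = q ∧ q < S.h l - d σ) * (S.w l * S.w s))) ≤
      ind (S.FP (q + d σ) l) * ∑' r, G (l ++ r) := by
    intro l
    by_cases hl : S.h l ≤ N
    · by_cases hF : S.FP (q + d σ) l
      · rw [ind_true hl, one_mul, ind_true hF, one_mul]
        have h2 : S.b N ≤ ∑' r, ind (S.h r = N - S.h l) * S.w r := hG.anti (Nat.sub_le N (S.h l))
        refine (mul_le_mul' h2 le_rfl).trans ?_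
        rw [← ENNReal.tsum_mul_right]
        refine ENNReal.tsum_le_tsum fun r => ?_
        rw [hGd]
        simp only
        rw [← ENNReal.tsum_mul_left]
        refine ENNReal.tsum_le_tsum fun s => ?_
        by_cases hr : S.h r = N - S.h l
        · by_cases hs : S.good σ g l s ∧ S.FP (q + d σ) l ∧ S.h s = q ∧ q < S.h l - d σ
          · have h3 : S.good σ g (l ++ r) s := hG.ext σ g l r s hs.1 (by rw [hs.2.2.1]; exact hs.2.2.2)
            have h4 : S.h (l ++ r) = N := by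
              rw [S.h_append, hr]
              omega
            rw [ind_true hr, ind_true hs, ind_true ⟨h3, h4, hs.2.2.1⟩, S.w_append]
            apply le_of_eq
            ring
          · rw [ind_false hs, zero_mul, mul_zero]
            exact bot_le
        · rw [ind_false hr, zero_mul, zero_mul]
          exact bot_le
      · have h2 : ∑' s, ind (S.good σ g l s ∧ S.FP (q + d σ) l ∧ S.h s = q ∧
            q < S.h l - d σ) * (S.w l * S.w s) = 0 := by
          rw [ENNReal.tsum_eq_zero]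
          intro s
          rw [ind_false (fun h => hF h.2.1), zero_mul]
        rw [h2, mul_zero, mul_zero]
        exact bot_le
    · rw [ind_false hl, zero_mul, mul_zero]
      exact bot_le
  have h2 : S.b N * ∑' l, ind (S.h l ≤ N) * (∑' s, ind (S.good σ g l s ∧ S.FP (q + d σ) l ∧ S.h s = q ∧
      q < S.h l - d σ) * (S.w l * S.w s)) ≤ ∑' X, G X := by
    rw [← ENNReal.tsum_mul_left]
    refine (ENNReal.tsum_le_tsum h1).trans ?_
    rw [← S.tsum_split (q + d σ) G]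
    refine ENNReal.tsum_le_tsum fun X => ?_
    calc ind (q + d σ ≤ S.h X) * G X ≤ 1 * G X := mul_le_mul' (ind_le_one _) le_rfl
      _ = G X := one_mul _
  have h3 : (g : ℝ≥0∞) * ∑' X, G X ≤ K * S.b N := hG.gap σ g N q hg hq
  have h4 : S.b N * ((g : ℝ≥0∞) * ∑' l, ind (S.h l ≤ N) * (∑' s, ind (S.good σ g l s ∧
      S.FP (q + d σ) l ∧ S.h s = q ∧ q < S.h l - d σ) * (S.w l * S.w s))) ≤ K * S.b N := by
    refine le_trans ?_ h3
    rw [mul_left_comm]
    exact mul_le_mul' le_rfl h2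
  calc (g : ℝ≥0∞) * ∑' l, ind (S.h l ≤ N) * (∑' s, ind (S.good σ g l s ∧
        S.FP (q + d σ) l ∧ S.h s = q ∧ q < S.h l - d σ) * (S.w l * S.w s))
      = (S.b N)⁻¹ * (S.b N * ((g : ℝ≥0∞) * ∑' l, ind (S.h l ≤ N) * (∑' s, ind (S.good σ g l s ∧
        S.FP (q + d σ) l ∧ S.h s = q ∧ q < S.h l - d σ) * (S.w l * S.w s)))) := by
        rw [← mul_assoc, ENNReal.inv_mul_cancel (hb N) (S.b_ne_top N), one_mul]
    _ ≤ (S.b N)⁻¹ * (K * S.b N) := mul_le_mul' le_rfl h4
    _ = K := by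
        rw [mul_left_comm, ENNReal.inv_mul_cancel (hb N) (S.b_ne_top N), mul_one]

theorem gap_le {K : ℕ} (hG : S.Gyp K) (hb : ∀ N, S.b N ≠ 0) (σ : Bool) (g q : ℕ) (hg : 1 ≤ g) (hq : 1 ≤ q) :
    (g : ℝ≥0∞) * ∑' l, ∑' s, ind (S.good σ g l s ∧ S.FP (q + d σ) l ∧ S.h s = q) * (S.w l * S.w s) ≤ 2 * K := by
  classical
  have hEQ : (g : ℝ≥0∞) * ∑' l, ∑' s, ind (S.good σ g l s ∧ S.h l = q + d σ ∧ S.h s = q) *
      (S.w l * S.w s) ≤ K := by
    refine (hG.gap σ g (q + d σ) q hg hq).trans ?_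
    calc (K : ℝ≥0∞) * S.b (q + d σ) ≤ K * 1 := mul_le_mul' le_rfl (S.b_le_one _)
      _ = K := mul_one _
  have hST : (g : ℝ≥0∞) * ∑' l, ∑' s, ind (S.good σ g l s ∧ S.FP (q + d σ) l ∧ S.h s = q ∧
      q < S.h l - d σ) * (S.w l * S.w s) ≤ K := by
    rw [← ENNReal.tsum_mul_left, ENNReal.tsum_eq_iSup_sum]
    refine iSup_le fun t => ?_
    refine le_trans ?_ (Good_st hG hb σ g q hg hq (t.sup S.h))
    rw [← ENNReal.tsum_mul_left]
    refine le_trans ?_ (ENNReal.sum_le_tsum t)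
    refine sum_le_sum fun l hl => ?_
    rw [ind_true (Finset.le_sup (f := S.h) hl), one_mul]
  have hle : ∑' l, ∑' s, ind (S.good σ g l s ∧ S.FP (q + d σ) l ∧ S.h s = q) * (S.w l * S.w s) ≤
      ∑' l, ∑' s, ind (S.good σ g l s ∧ S.h l = q + d σ ∧ S.h s = q) * (S.w l * S.w s) +
      ∑' l, ∑' s, ind (S.good σ g l s ∧ S.FP (q + d σ) l ∧ S.h s = q ∧
      q < S.h l - d σ) * (S.w l * S.w s) := by
    rw [← ENNReal.tsum_add]
    refine ENNReal.tsum_le_tsum fun l => ?_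
    rw [← ENNReal.tsum_add]
    refine ENNReal.tsum_le_tsum fun s => ?_
    rw [← add_mul]
    refine mul_le_mul' ?_ le_rfl
    refine le_trans (ind_mono ?_) (ind_or_le _ _)
    rintro ⟨h1, h2, h3⟩
    have h4 : q + d σ ≤ S.h l := h2.1
    rcases Nat.lt_or_ge (q + d σ) (S.h l) with h5 | h5
    · exact Or.inr ⟨h1, h2, h3, by omega⟩
    · exact Or.inl ⟨h1, by omega, h3⟩
  calc (g : ℝ≥0∞) * ∑' l, ∑' s, ind (S.good σ g l s ∧ S.FP (q + d σ) l ∧ S.h s = q) * (S.w l * S.w s)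
      ≤ g * (∑' l, ∑' s, ind (S.good σ g l s ∧ S.h l = q + d σ ∧ S.h s = q) * (S.w l * S.w s) +
      ∑' l, ∑' s, ind (S.good σ g l s ∧ S.FP (q + d σ) l ∧ S.h s = q ∧
      q < S.h l - d σ) * (S.w l * S.w s)) := mul_le_mul' le_rfl hle
    _ ≤ K + K := by
        rw [mul_add]
        exact add_le_add hEQ hST
    _ = 2 * K := (two_mul _).symm

end Sys

end Pool.Agent.HEP
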