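import Pool.Agent.PLF.It

/-!
Project PLF, module I2: THE SHARP FOLD ESTIMATE, recursive form. `Td i N` = mass of the pairs `gp` of the levels `q ∈ [2 ^ i, 2 ^ (i + 1))`, long leg (in first
passage) of height `> N`. If `Td i 0 ≤ B` and `Td i (2 ^ k) ≤ B ρ ^ (k - i)` at all smaller scales `i < j`, then `Td j 0 ≤ C + s B`, `s > 0` arbitrary, `C = C(K, κ, ρ, s)`.

PAPER PROOF. `m = 2 ^ j`, `g = 2 ^ (j - p)`, `p ≥ 2`, `j ≥ p` (for `j < p`: `Td j 0 ≤ 2 * 2 ^ p`). `split_le` (levels `Ioc (m - 1) (2 m - 1)`), `bad_le` for the thresholds `t ∈ [m / 2, m - 1]`: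
`(m / 2) * bm ≤ (U g + 2 K g b g) * ∑_t LP t`. `∑_t LP t`, by the class of `r`: `r < m / 4`: `Lam (t - r) ≤ Lam (m / 4) ≤ 4 / U m`, `m2 r t ≤ m2 r (m / 2)`, `∑_(r < m / 4) m2 r (m / 2) ≤ 2 + ∑_(i ≤ j - 3) Td i (2 ^ (j - 1)) ≤ 2 + B / (1 - ρ)`;
`r ≥ m / 4` (`i = j - 2, j - 1`): `m2 r t ≤ m2 r 0`, `∑_t Lam (t - r) ≤ ∑_(k ≤ m) Lam k ≤ κ m / U m`. So `∑_t LP t ≤ (m / 2) / U m * (8 + (4 / (1 - ρ) + 4 κ) B)`, `U g / U m ≤ θ ^ p`.
-/

namespace Pool.Agent.HEP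

open scoped ENNReal
open Finset

namespace Sys

/-- Mass of the pairs of the levels of the dyadic class `i`, long leg of height `> N`. -/
noncomputable def Td (S : Sys) (i N : ℕ) : ℝ≥0∞ := ∑ q ∈ Ico (2 ^ i) (2 ^ (i + 1)), S.m2 q N

variable {S : Sys}

theorem m2_le_two (q N : ℕ) : S.m2 q N ≤ 2 := by
  unfold m2
  exact (add_le_add (mt_le_one true q N) (mt_le_one false q N)).trans (by rw [one_add_one_eq_two])

theorem m2_anti (q : ℕ) : Antitone (S.m2 q) := fun _ _ h =>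
  add_le_add (mt_anti true q h) (mt_anti false q h)

theorem Td_le (i N : ℕ) : S.Td i N ≤ 2 * 2 ^ i := by
  unfold Td
  refine (sum_le_sum fun q _ => m2_le_two q N).trans ?_
  rw [sum_const, Nat.card_Ico, nsmul_eq_mul, pow_succ, mul_comm]
  refine mul_le_mul' le_rfl ?_
  have : 2 ^ i * 2 - 2 ^ i = 2 ^ i := by omega
  rw [this]
  push_cast
  exact le_rfl

/-- Dyadic decomposition of a range. -/
theorem sum_range_dyadic (f : ℕ → ℝ≥0∞) (n : ℕ) :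
    ∑ r ∈ range (2 ^ n), f r = f 0 + ∑ i ∈ range n, ∑ r ∈ Ico (2 ^ i) (2 ^ (i + 1)), f r := by
  induction n with
  | zero => simp
  | succ n ih =>
    rw [sum_range_succ (n := n), ← add_assoc, ← ih]
    rw [← Finset.sum_range_add_sum_Ico f (show 2 ^ n ≤ 2 ^ (n + 1) from Nat.pow_le_pow_right (by norm_num) (by omega))]

/-- The ratio of the regularity. -/
noncomputable def thk (κ : ℕ) : ℝ≥0∞ := ((2 * κ - 1 : ℕ) : ℝ≥0∞) / (2 * κ)

theorem thk_lt {κ : ℕ} (hκ : 1 ≤ κ) : thk κ < 1 := by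
  unfold thk
  have h0 : (2 * κ : ℝ≥0∞) ≠ 0 := by positivity
  have h1 : (2 * κ : ℝ≥0∞) ≠ ⊤ := by finiteness
  rw [ENNReal.div_lt_iff (Or.inl h0) (Or.inl h1), one_mul]
  have : (2 * κ - 1 : ℕ) < 2 * κ := by omega
  exact_mod_cast this

theorem U_pow_le {κ : ℕ} (hR : S.Reg κ) (hb : Antitone S.b) (i p : ℕ) :
    S.U (2 ^ i) ≤ thk κ ^ p * S.U (2 ^ (i + p)) := by
  have hκ := hR.one_le
  have h0 : (2 * κ : ℝ≥0∞) ≠ 0 := by positivity
  have h1 : (2 * κ : ℝ≥0∞) ≠ ⊤ := by finiteness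
  have key : ∀ m, 1 ≤ m → S.U m ≤ thk κ * S.U (2 * m) := by
    intro m hm
    have h2 := hR.U_half hb m hm
    unfold thk
    rw [div_eq_mul_inv, mul_right_comm, ← div_eq_mul_inv, ENNReal.le_div_iff_mul_le (Or.inl h0) (Or.inl h1),
      mul_comm]
    exact h2
  induction p with
  | zero => simp
  | succ p ih =>
    refine ih.trans ?_
    rw [pow_succ, mul_assoc]
    refine mul_le_mul' le_rfl ?_
    have := key (2 ^ (i + p)) Nat.one_le_two_pow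
    rwa [← pow_succ', ← add_assoc] at *

theorem b_mul_sum_Lam (hb : Antitone S.b) (m : ℕ) : S.b m * ∑ k ∈ range (m + 1), S.Lam k ≤ 1 := by
  rw [← S.ren m, ← sum_range_reflect (fun p => S.b p * S.Lam (m - p)), mul_sum]
  refine sum_le_sum fun k hk => ?_
  rw [mem_range] at hk
  have e : m - (m + 1 - 1 - k) = k := by omega
  rw [e]
  exact mul_le_mul' (hb (by omega)) le_rfl

/-- The sum over the thresholds. -/
private theorem sum_LP_Ico {κ : ℕ} (hR : S.Reg κ) (hb : Antitone S.b) {ρ B : ℝ≥0∞} {j : ℕ}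
    (h1 : ∀ i < j + 2, S.Td i 0 ≤ B) (h2 : ∀ i < j + 2, ∀ k, i ≤ k → S.Td i (2 ^ k) ≤ B * ρ ^ (k - i)) :
    ∑ t ∈ Ico (2 ^ (j + 1)) (2 ^ (j + 2)), S.LP t ≤
      2 ^ (j + 1) / S.U (2 ^ (j + 2)) * (8 + (4 * (1 - ρ)⁻¹ + 4 * κ) * B) := by
  set m := 2 ^ (j + 2) with hm
  have hm0 : 1 ≤ m := Nat.one_le_two_pow
  have hU0 := S.U_ne_zero m
  have hU1 := S.U_ne_top m
  -- the part of the small levels
  have a1 : ∑ r ∈ range (2 ^ j), S.m2 r (2 ^ (j + 1)) ≤ 2 + B * (1 - ρ)⁻¹ := by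
    rw [sum_range_dyadic]
    refine add_le_add (m2_le_two _ _) ?_
    calc ∑ i ∈ range j, ∑ r ∈ Ico (2 ^ i) (2 ^ (i + 1)), S.m2 r (2 ^ (j + 1))
        ≤ ∑ i ∈ range j, B * ρ ^ (j - 1 - i) := by
          refine sum_le_sum fun i hi => ?_
          rw [mem_range] at hi
          refine (sum_le_sum fun r _ => m2_anti r (Nat.pow_le_pow_right (by norm_num) (by omega : j - 1 ≤ j + 1))).trans ?_
          exact h2 i (by omega) (j - 1) (by omega)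
      _ = B * ∑ i ∈ range j, ρ ^ (j - 1 - i) := by rw [mul_sum]
      _ = B * ∑ i ∈ range j, ρ ^ i := by rw [sum_range_reflect (fun i => ρ ^ i)]
      _ ≤ B * ∑' i, ρ ^ i := mul_le_mul' le_rfl (ENNReal.sum_le_tsum _)
      _ = _ := by rw [ENNReal.tsum_geometric]
  have a2 : S.Lam (2 ^ j) ≤ 4 * (S.U m)⁻¹ := by
    refine (S.Lam_le_div _).trans ?_
    have b1 : S.U m ≤ 4 * S.U (2 ^ j) := by
      have e1 : m = 2 * (2 * 2 ^ j) := by rw [hm, pow_add]; ring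
      rw [e1]
      calc S.U (2 * (2 * 2 ^ j)) ≤ 2 * S.U (2 * 2 ^ j) := S.U_two hb _
        _ ≤ 2 * (2 * S.U (2 ^ j)) := mul_le_mul' le_rfl (S.U_two hb _)
        _ = _ := by rw [← mul_assoc]; norm_num
    rw [← div_eq_mul_inv, ENNReal.le_div_iff_mul_le (Or.inl hU0) (Or.inl hU1)]
    calc (S.U (2 ^ j))⁻¹ * S.U m ≤ (S.U (2 ^ j))⁻¹ * (4 * S.U (2 ^ j)) := mul_le_mul' le_rfl b1
      _ = 4 * ((S.U (2 ^ j))⁻¹ * S.U (2 ^ j)) := by ring
      _ = 4 := by rw [ENNReal.inv_mul_cancel (S.U_ne_zero _) (S.U_ne_top _), mul_one]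
  -- each threshold
  have a3 : ∀ t ∈ Ico (2 ^ (j + 1)) m, S.LP t ≤ (2 + B * (1 - ρ)⁻¹) * (4 * (S.U m)⁻¹) +
      ∑ r ∈ Ico (2 ^ j) m, S.m2 r 0 * (if r ≤ t then S.Lam (t - r) else 0) := by
    intro t ht
    rw [mem_Ico] at ht
    have e2 : 2 ^ (j + 1) = 2 * 2 ^ j := by rw [pow_succ]; ring
    unfold LP
    rw [← Finset.sum_range_add_sum_Ico _ (show 2 ^ j ≤ t + 1 by omega)]
    refine add_le_add ?_ ?_
    · refine le_trans (sum_le_sum fun r hr => ?_) (le_trans (le_of_eq (sum_mul _ _ _).symm) (mul_le_mul' a1 le_rfl))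
      rw [mem_range] at hr
      refine mul_le_mul' (m2_anti r ht.1) ((S.Lam_anti ?_).trans a2)
      omega
    · calc ∑ r ∈ Ico (2 ^ j) (t + 1), S.m2 r t * S.Lam (t - r)
          ≤ ∑ r ∈ Ico (2 ^ j) (t + 1), S.m2 r 0 * (if r ≤ t then S.Lam (t - r) else 0) := by
            refine sum_le_sum fun r hr => ?_
            rw [mem_Ico] at hr
            rw [if_pos (by omega)]
            exact mul_le_mul' (m2_anti r (Nat.zero_le _)) le_rfl
        _ ≤ _ := sum_le_sum_of_subset (Ico_subset_Ico le_rfl (by omega))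
  have a4 : ∑ t ∈ Ico (2 ^ (j + 1)) m, ∑ r ∈ Ico (2 ^ j) m, S.m2 r 0 * (if r ≤ t then S.Lam (t - r) else 0) ≤
      2 * B * (κ * m / S.U m) := by
    have hΛ : ∑ k ∈ range (m + 1), S.Lam k ≤ κ * m / S.U m := by
      rw [ENNReal.le_div_iff_mul_le (Or.inl hU0) (Or.inl hU1)]
      calc (∑ k ∈ range (m + 1), S.Lam k) * S.U m ≤ (∑ k ∈ range (m + 1), S.Lam k) * (κ * m * S.b m) :=
            mul_le_mul' le_rfl (hR m hm0)
        _ = κ * m * (S.b m * ∑ k ∈ range (m + 1), S.Lam k) := by ring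
        _ ≤ κ * m * 1 := mul_le_mul' le_rfl (b_mul_sum_Lam hb m)
        _ = _ := mul_one _
    rw [sum_comm]
    have b1 : ∀ r ∈ Ico (2 ^ j) m, ∑ t ∈ Ico (2 ^ (j + 1)) m, S.m2 r 0 * (if r ≤ t then S.Lam (t - r) else 0) ≤
        S.m2 r 0 * (κ * m / S.U m) := by
      intro r _
      rw [← mul_sum]
      refine mul_le_mul' le_rfl (le_trans ?_ hΛ)
      calc ∑ t ∈ Ico (2 ^ (j + 1)) m, (if r ≤ t then S.Lam (t - r) else 0)
          ≤ ∑ t ∈ Ico r (r + (m + 1)), S.Lam (t - r) := by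
            rw [← sum_filter]
            refine sum_le_sum_of_subset fun t ht => ?_
            rw [mem_filter, mem_Ico] at ht
            rw [mem_Ico]
            omega
        _ = ∑ k ∈ range (m + 1), S.Lam k := by
            rw [sum_Ico_eq_sum_range]
            simp
    refine (sum_le_sum b1).trans ?_
    rw [← sum_mul]
    refine mul_le_mul' ?_ le_rfl
    have e3 : ∑ r ∈ Ico (2 ^ j) m, S.m2 r 0 = S.Td j 0 + S.Td (j + 1) 0 := by
      unfold Td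
      rw [sum_Ico_consecutive _ (Nat.pow_le_pow_right (by norm_num) (by omega)) (Nat.pow_le_pow_right (by norm_num) (by omega))]
    rw [e3, two_mul]
    exact add_le_add (h1 j (by omega)) (h1 (j + 1) (by omega))
  refine (sum_le_sum a3).trans ?_
  rw [sum_add_distrib, sum_const, Nat.card_Ico, nsmul_eq_mul]
  have e4 : m - 2 ^ (j + 1) = 2 ^ (j + 1) := by rw [hm, pow_succ 2 (j + 1)]; omega
  rw [e4]
  refine (add_le_add le_rfl a4).trans (le_of_eq ?_)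
  have e5 : (m : ℝ≥0∞) = 2 * 2 ^ (j + 1) := by
    rw [hm]; push_cast; rw [pow_succ' (2 : ℝ≥0∞) (j + 1)]
  rw [e5, ENNReal.div_eq_inv_mul, ENNReal.div_eq_inv_mul]
  push_cast
  ring

theorem i2 (K κ : ℕ) (ρ : ℝ≥0∞) (hρ : ρ < 1) (s : ℝ≥0∞) (hs : s ≠ 0) : ∃ C : ℝ≥0∞, C ≠ ⊤ ∧
    ∀ S : Sys, S.Gyp K → S.Reg κ → ∀ (B : ℝ≥0∞) (j : ℕ), (∀ i < j, S.Td i 0 ≤ B) →
      (∀ i < j, ∀ k, i ≤ k → S.Td i (2 ^ k) ≤ B * ρ ^ (k - i)) → S.Td j 0 ≤ C + s * B := by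
  by_cases hκ : 1 ≤ κ
  swap
  · exact ⟨0, by simp, fun S _ hR => absurd hR.one_le hκ⟩
  set D : ℝ≥0∞ := 2 * (1 + 2 * K) * (4 * (1 - ρ)⁻¹ + 4 * κ) with hD
  have hDt : D ≠ ⊤ := by
    have h1 : (1 - ρ)⁻¹ ≠ ⊤ := by
      rw [ENNReal.inv_ne_top]
      exact (tsub_pos_of_lt hρ).ne'
    rw [hD]
    finiteness
  obtain ⟨p0, hp0⟩ : ∃ p0, D * thk κ ^ p0 ≤ s := by
    have h1 : Filter.Tendsto (fun n => D * thk κ ^ n) Filter.atTop (nhds (D * 0)) :=
      ENNReal.Tendsto.const_mul (ENNReal.tendsto_pow_atTop_nhds_zero_of_lt_one (thk_lt hκ)) (Or.inr hDt)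
    rw [mul_zero] at h1
    obtain ⟨p, hp⟩ := (h1.eventually (gt_mem_nhds (pos_iff_ne_zero.2 hs))).exists
    exact ⟨p, hp.le⟩
  set p := p0 + 2 with hp
  have hps : D * thk κ ^ p ≤ s := by
    refine le_trans (mul_le_mul' le_rfl ?_) hp0
    exact pow_le_pow_right_of_le_one' (thk_lt hκ).le (by omega)
  refine ⟨4 * K * 2 ^ p + 16 * (1 + 2 * K) + 2 * 2 ^ p, by finiteness, fun S hG hR B j h1 h2 => ?_⟩
  rcases lt_or_ge j p with hj | hj
  · refine (Td_le j 0).trans ?_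
    refine le_trans ?_ (le_trans le_add_self le_self_add)
    exact mul_le_mul' le_rfl (pow_le_pow_right₀ (by norm_num) hj.le)
  obtain ⟨i, rfl⟩ := Nat.exists_eq_add_of_le hj
  set g := 2 ^ i with hg
  have hg1 : 1 ≤ g := Nat.one_le_two_pow
  have hb := hG.anti
  have hb0 := hR.b_ne_zero
  set m := 2 ^ (p + i) with hm
  have hm1 : 1 ≤ m := Nat.one_le_two_pow
  have hU0 := S.U_ne_zero m
  have hU1 := S.U_ne_top m
  have hI : Ico (2 ^ (p + i)) (2 ^ (p + i + 1)) = Ioc (m - 1) (2 ^ (p + i + 1) - 1) := by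
    ext x
    rw [mem_Ico, mem_Ioc]
    have : 1 ≤ 2 ^ (p + i + 1) := Nat.one_le_two_pow
    omega
  have hsplit : ∀ σ, ∑ q ∈ Ico (2 ^ (p + i)) (2 ^ (p + i + 1)), S.mt σ q 0 ≤
      2 * K * 2 ^ p + S.bm σ g (m - 1) (2 ^ (p + i + 1) - 1) := by
    intro σ
    rw [hI]
    refine (split_le hG hb0 σ g (m - 1) _ hg1).trans (add_le_add (le_of_eq ?_) le_rfl)
    have e1 : 2 ^ (p + i + 1) - 1 - (m - 1) = 2 ^ p * g := by
      rw [hg, ← pow_add, pow_succ, ← hm]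
      omega
    rw [e1]
    have hg0 : (g : ℝ≥0∞) ≠ 0 := by exact_mod_cast (by omega : g ≠ 0)
    push_cast
    rw [div_eq_mul_inv]
    calc 2 ^ p * (g : ℝ≥0∞) * (2 * K * (g : ℝ≥0∞)⁻¹) = 2 * K * 2 ^ p * ((g : ℝ≥0∞) * (g : ℝ≥0∞)⁻¹) := by ring
      _ = _ := by rw [ENNReal.mul_inv_cancel hg0 (by finiteness), mul_one]
  have hbm : ∀ σ, S.bm σ g (m - 1) (2 ^ (p + i + 1) - 1) ≤
      (1 + 2 * K) * thk κ ^ p * (8 + (4 * (1 - ρ)⁻¹ + 4 * κ) * B) := by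
    intro σ
    have c1 : ∀ t ∈ Ico (2 ^ (p + i - 2 + 1)) (2 ^ (p + i - 2 + 2)),
        S.bm σ g (m - 1) (2 ^ (p + i + 1) - 1) ≤ (S.U g + 2 * K * g * S.b g) * S.LP t := by
      intro t ht
      rw [mem_Ico] at ht
      refine bad_le hG σ g _ _ t ?_
      have e : p + i - 2 + 2 = p + i := by omega
      rw [e] at ht
      omega
    have c2 := sum_le_sum c1
    rw [sum_const, Nat.card_Ico, nsmul_eq_mul, ← mul_sum] at c2
    have c3 := sum_LP_Ico (j := p + i - 2) hR hb (ρ := ρ) (B := B) (fun i' hi' => h1 i' (by omega))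
      (fun i' hi' => h2 i' (by omega))
    have e : p + i - 2 + 2 = p + i := by omega
    rw [e] at c2 c3
    have e2 : 2 ^ (p + i) - 2 ^ (p + i - 2 + 1) = 2 ^ (p + i - 2 + 1) := by
      have : p + i = p + i - 2 + 1 + 1 := by omega
      conv_lhs => rw [this, pow_succ]
      have e5 : p + i - 2 + 1 + 1 - 2 + 1 = p + i - 2 + 1 := by omega
      rw [e5]
      omega
    rw [e2] at c2
    have c4 : S.U g + 2 * K * g * S.b g ≤ (1 + 2 * K) * S.U g := by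
      have : (g : ℝ≥0∞) * S.b g ≤ S.U g := by
        refine le_trans (mul_le_mul' le_self_add le_rfl) (S.b_mul hb g)
      calc S.U g + 2 * K * g * S.b g = S.U g + 2 * K * (g * S.b g) := by ring
        _ ≤ S.U g + 2 * K * S.U g := add_le_add le_rfl (mul_le_mul' le_rfl this)
        _ = _ := by ring
    have c5 : S.U g ≤ thk κ ^ p * S.U m := by
      have := U_pow_le hR hb i p
      rwa [add_comm i p] at this
    have h20 : ((2 ^ (p + i - 2 + 1) : ℕ) : ℝ≥0∞) ≠ 0 := by positivity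
    have h21 : ((2 ^ (p + i - 2 + 1) : ℕ) : ℝ≥0∞) ≠ ⊤ := by finiteness
    rw [← ENNReal.mul_le_mul_iff_right h20 h21]
    refine c2.trans ?_
    calc (S.U g + 2 * K * g * S.b g) * ∑ t ∈ Ico (2 ^ (p + i - 2 + 1)) (2 ^ (p + i)), S.LP t
        ≤ ((1 + 2 * K) * (thk κ ^ p * S.U m)) * (2 ^ (p + i - 2 + 1) / S.U (2 ^ (p + i)) *
          (8 + (4 * (1 - ρ)⁻¹ + 4 * κ) * B)) :=
          mul_le_mul' (c4.trans (mul_le_mul' le_rfl c5)) c3
      _ = (S.U m * (S.U m)⁻¹) * (2 ^ (p + i - 2 + 1) * ((1 + 2 * K) * thk κ ^ p *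
          (8 + (4 * (1 - ρ)⁻¹ + 4 * κ) * B))) := by
          rw [← hm, div_eq_mul_inv]; ring
      _ = _ := by
          rw [ENNReal.mul_inv_cancel hU0 hU1, one_mul]; push_cast; ring
  have htot : S.Td (p + i) 0 = ∑ q ∈ Ico (2 ^ (p + i)) (2 ^ (p + i + 1)), S.mt true q 0 +
      ∑ q ∈ Ico (2 ^ (p + i)) (2 ^ (p + i + 1)), S.mt false q 0 := by
    unfold Td m2
    rw [sum_add_distrib]
  rw [htot]
  have hθ1 : thk κ ^ p ≤ 1 := pow_le_one' (thk_lt hκ).le p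
  calc _ ≤ (2 * K * 2 ^ p + (1 + 2 * K) * thk κ ^ p * (8 + (4 * (1 - ρ)⁻¹ + 4 * κ) * B)) +
        (2 * K * 2 ^ p + (1 + 2 * K) * thk κ ^ p * (8 + (4 * (1 - ρ)⁻¹ + 4 * κ) * B)) :=
        add_le_add ((hsplit true).trans (add_le_add le_rfl (hbm true)))
          ((hsplit false).trans (add_le_add le_rfl (hbm false)))
    _ = 4 * K * 2 ^ p + 16 * (1 + 2 * K) * thk κ ^ p + (D * thk κ ^ p) * B := by rw [hD]; ring
    _ ≤ 4 * K * 2 ^ p + 16 * (1 + 2 * K) * 1 + s * B := by gcongr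
    _ ≤ _ := by
        rw [mul_one]
        exact add_le_add le_self_add le_rfl

end Sys

end Pool.Agent.HEP
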