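import Pool.Agent.PLF.Rec

/-!
Project PLF, module It: ITERATION of the recursion: `Vp (2 ^ n) ≤ C (n + 1) ^ A`.

PAPER PROOF.
* `Reg.one_le`: `1 ≤ U 1 ≤ κ * 1 * b 1` and `b ≤ 1`, so `κ ≥ 1`.
* `Reg.U_half`: `U (2 m) - U m = ∑_(m < k ≤ 2 m) b k ≥ m b (2 m)` (`anti`) and `U (2 m) ≤ 2 κ m b (2 m)`: `U (2 m) * (1 - 1 / (2 κ)) ≥ U m`, written `2 κ * U m ≤ (2 κ - 1) * U (2 m)` (natural number `2 κ - 1`).
  So with `θ = (2 κ - 1) / (2 κ) ∈ [1/2, 1)`: `U (2 ^ i) ≤ θ ^ p * U (2 ^ (i + p))`.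
* `Vp_le`: `Vp M ≤ 2 (M + 1)` (`mt_le_one`).
* `it_le`: let `n ≥ 1`; choose `p` with `θ ^ p ≤ 1 / n` and `2 ^ p ≤ 2 n ^ c`, `c = log 2 / log (1 / θ)` (`p = ⌈log n / log (1 / θ)⌉`). For `i ≤ p`: `Vp (2 ^ i) ≤ 2 (2 ^ p + 1) ≤ 4 * 2 ^ p`. For `p ≤ i < n`, `g = 2 ^ (i - p)`, `m = 2 ^ i` in `recp_le`:
  `Vp (2 ^ (i + 1)) ≤ (1 + C1 / n) * Vp (2 ^ i) + 4 K 2 ^ p`, `C1 = 2 κ (1 + 2 K)`. So `Vp (2 ^ n) ≤ (1 + C1 / n) ^ n * (4 * 2 ^ p + n * 4 K 2 ^ p) ≤ exp C1 * (4 + 4 K n) * 2 n ^ c`. Work in `ℝ` (`ENNReal.toReal`, all finite) or directly in `ℝ≥0∞`.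
-/

namespace Pool.Agent.HEP

open scoped ENNReal
open Finset

namespace Sys

variable {S : Sys}

theorem Reg.one_le {κ : ℕ} (h : S.Reg κ) : 1 ≤ κ := by
  by_contra hκ
  have h0 : κ = 0 := by omega
  have h1 := h 1 le_rfl
  rw [h0] at h1
  simp only [Nat.cast_zero, zero_mul, nonpos_iff_eq_zero] at h1
  exact S.U_ne_zero 1 h1

theorem Reg.U_half {κ : ℕ} (h : S.Reg κ) (hb : Antitone S.b) (m : ℕ) (hm : 1 ≤ m) :
    (2 * κ : ℝ≥0∞) * S.U m ≤ ((2 * κ - 1 : ℕ) : ℝ≥0∞) * S.U (2 * m) := by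
  have hκ := h.one_le
  -- the second half of the sum
  have h1 : S.U m + m * S.b (2 * m) ≤ S.U (2 * m) := by
    have h2 : S.U (2 * m) = S.U m + ∑ k ∈ Ioc m (2 * m), S.b k := by
      unfold Alph.U
      rw [show range (2 * m + 1) = range (m + 1) ∪ Ioc m (2 * m) by
        ext k; simp only [mem_range, mem_union, mem_Ioc]; omega]
      rw [sum_union]
      rw [disjoint_left]
      intro k hk hk'
      simp only [mem_range, mem_Ioc] at hk hk'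
      omega
    rw [h2]
    gcongr
    calc (m : ℝ≥0∞) * S.b (2 * m) = ∑ _k ∈ Ioc m (2 * m), S.b (2 * m) := by
          rw [sum_const, Nat.card_Ioc, nsmul_eq_mul, show 2 * m - m = m by omega]
      _ ≤ ∑ k ∈ Ioc m (2 * m), S.b k := by
          refine sum_le_sum fun k hk => hb ?_
          rw [mem_Ioc] at hk
          exact hk.2
  have h3 : S.U (2 * m) ≤ (2 * κ : ℝ≥0∞) * (m * S.b (2 * m)) := by
    have := h (2 * m) (by omega)
    push_cast at this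
    calc S.U (2 * m) ≤ κ * (2 * m) * S.b (2 * m) := this
      _ = (2 * κ : ℝ≥0∞) * (m * S.b (2 * m)) := by ring
  have h4 : ((2 * κ - 1 : ℕ) : ℝ≥0∞) + 1 = 2 * κ := by
    have : ((2 * κ - 1 : ℕ) + 1 : ℕ) = 2 * κ := by omega
    exact_mod_cast congrArg (Nat.cast : ℕ → ℝ≥0∞) this
  have h5 : (2 * κ : ℝ≥0∞) * S.U m + S.U (2 * m) ≤ ((2 * κ - 1 : ℕ) : ℝ≥0∞) * S.U (2 * m) + S.U (2 * m) := by
    calc (2 * κ : ℝ≥0∞) * S.U m + S.U (2 * m) ≤ (2 * κ : ℝ≥0∞) * S.U m + (2 * κ : ℝ≥0∞) * (m * S.b (2 * m)) := by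
          gcongr
      _ = (2 * κ : ℝ≥0∞) * (S.U m + m * S.b (2 * m)) := by ring
      _ ≤ (2 * κ : ℝ≥0∞) * S.U (2 * m) := by gcongr
      _ = (((2 * κ - 1 : ℕ) : ℝ≥0∞) + 1) * S.U (2 * m) := by rw [h4]
      _ = ((2 * κ - 1 : ℕ) : ℝ≥0∞) * S.U (2 * m) + S.U (2 * m) := by ring
  exact (ENNReal.add_le_add_iff_right (S.U_ne_top (2 * m))).1 h5

theorem Vp_le (M : ℕ) : S.Vp M ≤ 2 * (M + 1) := by
  unfold Vp
  calc ∑ q ∈ range (M + 1), S.m2 q 0 ≤ ∑ _q ∈ range (M + 1), (2 : ℝ≥0∞) := by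
        refine sum_le_sum fun q _ => ?_
        unfold m2
        calc S.mt true q 0 + S.mt false q 0 ≤ 1 + 1 := add_le_add (mt_le_one _ _ _) (mt_le_one _ _ _)
          _ = 2 := one_add_one_eq_two
    _ = 2 * (M + 1) := by
        rw [sum_const, card_range, nsmul_eq_mul]
        push_cast
        ring

/-- `U (2 ^ i)` against `U (2 ^ (i + p))`. -/
private lemma it_U_pow {κ : ℕ} (h : S.Reg κ) (hb : Antitone S.b) (i p : ℕ) :
    ((2 * κ) ^ p : ℕ) * S.U (2 ^ i) ≤ ((2 * κ - 1) ^ p : ℕ) * S.U (2 ^ (i + p)) := by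
  induction p with
  | zero => simp
  | succ p ih =>
    have h1 := h.U_half hb (2 ^ (i + p)) Nat.one_le_two_pow
    rw [show 2 * 2 ^ (i + p) = 2 ^ (i + (p + 1)) by rw [← add_assoc, pow_succ]; ring] at h1
    calc (((2 * κ) ^ (p + 1) : ℕ) : ℝ≥0∞) * S.U (2 ^ i)
        = (2 * κ : ℝ≥0∞) * ((((2 * κ) ^ p : ℕ) : ℝ≥0∞) * S.U (2 ^ i)) := by
          push_cast
          ring
      _ ≤ (2 * κ : ℝ≥0∞) * ((((2 * κ - 1) ^ p : ℕ) : ℝ≥0∞) * S.U (2 ^ (i + p))) := by gcongr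
      _ = (((2 * κ - 1) ^ p : ℕ) : ℝ≥0∞) * ((2 * κ : ℝ≥0∞) * S.U (2 ^ (i + p))) := by ring
      _ ≤ (((2 * κ - 1) ^ p : ℕ) : ℝ≥0∞) * (((2 * κ - 1 : ℕ) : ℝ≥0∞) * S.U (2 ^ (i + (p + 1)))) := by gcongr
      _ = (((2 * κ - 1) ^ (p + 1) : ℕ) : ℝ≥0∞) * S.U (2 ^ (i + (p + 1))) := by
          rw [← mul_assoc, pow_succ (2 * κ - 1) p, Nat.cast_mul]

private lemma it_div {κ : ℕ} (h : S.Reg κ) (hb : Antitone S.b) (i p n : ℕ) (hn : 1 ≤ n)
    (hp : n * (2 * κ - 1) ^ p ≤ (2 * κ) ^ p) : S.U (2 ^ i) / S.U (2 ^ (i + p)) ≤ (n : ℝ≥0∞)⁻¹ := by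
  have hκ := h.one_le
  have h1 := it_U_pow h hb i p
  have h2 : (((2 * κ - 1) ^ p : ℕ) : ℝ≥0∞) * ((n : ℝ≥0∞) * S.U (2 ^ i)) ≤
      (((2 * κ - 1) ^ p : ℕ) : ℝ≥0∞) * S.U (2 ^ (i + p)) := by
    calc (((2 * κ - 1) ^ p : ℕ) : ℝ≥0∞) * ((n : ℝ≥0∞) * S.U (2 ^ i))
        = ((n * (2 * κ - 1) ^ p : ℕ) : ℝ≥0∞) * S.U (2 ^ i) := by push_cast; ring
      _ ≤ (((2 * κ) ^ p : ℕ) : ℝ≥0∞) * S.U (2 ^ i) := by gcongr
      _ ≤ _ := h1
  have h3 : (n : ℝ≥0∞) * S.U (2 ^ i) ≤ S.U (2 ^ (i + p)) := by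
    refine (ENNReal.mul_le_mul_iff_right ?_ (ENNReal.natCast_ne_top _)).1 h2
    have : 0 < (2 * κ - 1) ^ p := pow_pos (by omega) p
    exact_mod_cast this.ne'
  have hn0 : (n : ℝ≥0∞) ≠ 0 := by exact_mod_cast (by omega : n ≠ 0)
  rw [ENNReal.div_le_iff_le_mul (Or.inl (S.U_ne_zero _)) (Or.inl (S.U_ne_top _)), mul_comm, ← div_eq_mul_inv,
    ENNReal.le_div_iff_mul_le (Or.inl hn0) (Or.inl (ENNReal.natCast_ne_top n)), mul_comm]
  exact h3

private lemma it_iter (y : ℕ → ℝ≥0∞) (c D A0 : ℝ≥0∞) (h0 : y 0 ≤ A0) (h : ∀ j, y (j + 1) ≤ (1 + c) * y j + D)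
    (j : ℕ) : y j ≤ (1 + c) ^ j * (A0 + j * D) := by
  induction j with
  | zero => simpa using h0
  | succ j ih =>
    calc y (j + 1) ≤ (1 + c) * y j + D := h j
      _ ≤ (1 + c) * ((1 + c) ^ j * (A0 + j * D)) + D := by gcongr
      _ ≤ (1 + c) * ((1 + c) ^ j * (A0 + j * D)) + (1 + c) ^ (j + 1) * D := by
          gcongr
          calc D = 1 * D := (one_mul D).symm
            _ ≤ (1 + c) ^ (j + 1) * D := by
                gcongr
                exact one_le_pow₀ le_self_add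
      _ = (1 + c) ^ (j + 1) * (A0 + ((j + 1 : ℕ) : ℝ≥0∞) * D) := by
          push_cast
          ring

private lemma it_p {κ : ℕ} (hκ : 1 ≤ κ) (n : ℕ) (hn : 1 ≤ n) : ∃ p : ℕ, n * (2 * κ - 1) ^ p ≤ (2 * κ) ^ p ∧
    (2 : ℝ) ^ p ≤ 2 * (n : ℝ) ^ (Real.log 2 / Real.log (2 * κ / (2 * κ - 1))) := by
  have hκr : (1 : ℝ) ≤ κ := by exact_mod_cast hκ
  have hd : (0 : ℝ) < 2 * κ - 1 := by linarith
  set t : ℝ := 2 * κ / (2 * κ - 1) with ht
  have ht1 : 1 < t := by rw [ht, lt_div_iff₀ hd]; linarith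
  have hlt : 0 < Real.log t := Real.log_pos ht1
  have hnr : (1 : ℝ) ≤ n := by exact_mod_cast hn
  have hn0 : (0 : ℝ) < n := by linarith
  have hln : 0 ≤ Real.log n := Real.log_nonneg hnr
  refine ⟨⌈Real.log n / Real.log t⌉₊, ?_, ?_⟩
  · set p := ⌈Real.log n / Real.log t⌉₊ with hp
    have h1 : Real.log n ≤ p * Real.log t := by
      rw [← div_le_iff₀ hlt]
      exact Nat.le_ceil _
    have h2 : (n : ℝ) ≤ t ^ p := by
      rw [← Real.log_le_log_iff hn0 (pow_pos (by linarith) p), Real.log_pow]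
      exact h1
    have h3 : (n : ℝ) * (2 * κ - 1) ^ p ≤ (2 * κ) ^ p := by
      calc (n : ℝ) * (2 * κ - 1) ^ p ≤ t ^ p * (2 * κ - 1) ^ p := by gcongr
        _ = (2 * κ) ^ p := by
          rw [← mul_pow, ht, div_mul_cancel₀ _ hd.ne']
    have h4 : ((2 * κ - 1 : ℕ) : ℝ) = 2 * κ - 1 := by
      rw [Nat.cast_sub (by omega)]
      push_cast
      ring
    rw [← Nat.cast_le (α := ℝ)]
    rw [Nat.cast_mul, Nat.cast_pow, Nat.cast_pow, h4]
    push_cast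
    exact h3
  · have h1 : ((⌈Real.log n / Real.log t⌉₊ : ℕ) : ℝ) ≤ Real.log n / Real.log t + 1 :=
      (Nat.ceil_lt_add_one (div_nonneg hln hlt.le)).le
    calc (2 : ℝ) ^ ⌈Real.log n / Real.log t⌉₊ = (2 : ℝ) ^ ((⌈Real.log n / Real.log t⌉₊ : ℕ) : ℝ) :=
          (Real.rpow_natCast _ _).symm
      _ ≤ (2 : ℝ) ^ (Real.log n / Real.log t + 1) := Real.rpow_le_rpow_of_exponent_le (by norm_num) h1
      _ = 2 * (2 : ℝ) ^ (Real.log n / Real.log t) := by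
          rw [Real.rpow_add (by norm_num), Real.rpow_one, mul_comm]
      _ = 2 * (n : ℝ) ^ (Real.log 2 / Real.log t) := by
          congr 1
          rw [Real.rpow_def_of_pos (by norm_num), Real.rpow_def_of_pos hn0]
          congr 1
          ring

/-- **The fold estimate, polylogarithmic form.** -/
theorem it_le (K κ : ℕ) : ∃ C A : ℝ, 0 < C ∧ 0 < A ∧ ∀ S : Sys, S.Gyp K → S.Reg κ → ∀ n : ℕ,
    S.Vp (2 ^ n) ≤ ENNReal.ofReal (C * ((n : ℝ) + 1) ^ A) := by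
  rcases Nat.eq_zero_or_pos κ with hκ0 | hκ
  · exact ⟨1, 1, one_pos, one_pos, fun S _ hR => absurd hR.one_le (by omega)⟩
  set c : ℝ := Real.log 2 / Real.log (2 * κ / (2 * κ - 1)) with hc
  have hκr : (1 : ℝ) ≤ κ := by exact_mod_cast hκ
  have hd : (0 : ℝ) < 2 * κ - 1 := by linarith
  have hc0 : 0 < c := by
    refine div_pos (Real.log_pos (by norm_num)) (Real.log_pos ?_)
    rw [lt_div_iff₀ hd]; linarith
  set C1 : ℝ := 2 * κ * (1 + 2 * K) with hC1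
  have hC1n : 0 ≤ C1 := by positivity
  refine ⟨8 * (1 + K) * Real.exp C1, c + 1, by positivity, by linarith, fun S hG hR n => ?_⟩
  have hb := hG.anti
  have hexp : 1 ≤ Real.exp C1 := Real.one_le_exp hC1n
  have hn1 : (1 : ℝ) ≤ (n : ℝ) + 1 := by have : (0 : ℝ) ≤ n := Nat.cast_nonneg n; linarith
  -- a crude bound, for small exponents
  have hcrude : ∀ m q : ℕ, m ≤ q → S.Vp (2 ^ m) ≤ ENNReal.ofReal (4 * 2 ^ q) := by
    intro m q hmq
    refine (Vp_le _).trans ?_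
    have h1 : (2 : ℝ≥0∞) * (((2 ^ m : ℕ) : ℝ≥0∞) + 1) = ENNReal.ofReal (2 * (2 ^ m + 1)) := by
      rw [ENNReal.ofReal_mul (by norm_num), ENNReal.ofReal_add (by positivity) (by norm_num),
        ENNReal.ofReal_pow (by norm_num)]
      simp
    rw [h1]
    refine ENNReal.ofReal_le_ofReal ?_
    have h2 : (1 : ℝ) ≤ 2 ^ m := one_le_pow₀ (by norm_num)
    have h3 : (2 : ℝ) ^ m ≤ 2 ^ q := pow_le_pow_right₀ (by norm_num) hmq
    nlinarith
  rcases Nat.eq_zero_or_pos n with hn0 | hn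
  · subst hn0
    refine (hcrude 0 0 le_rfl).trans (ENNReal.ofReal_le_ofReal ?_)
    have hK : (0 : ℝ) ≤ K := Nat.cast_nonneg K
    simp only [pow_zero, mul_one, Nat.cast_zero, zero_add, Real.one_rpow]
    nlinarith
  obtain ⟨p, hp, hp2⟩ := it_p hκ n hn
  have hnr : (1 : ℝ) ≤ n := by exact_mod_cast hn
  have hnn : (0 : ℝ) < n := by linarith
  have hn0 : (n : ℝ≥0∞) ≠ 0 := by exact_mod_cast (by omega : n ≠ 0)
  -- the final estimate
  have hfin : ∀ j : ℕ, j ≤ n → S.Vp (2 ^ n) ≤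
      (1 + ENNReal.ofReal (C1 / n)) ^ j * (ENNReal.ofReal (4 * 2 ^ p) + j * ENNReal.ofReal (4 * K * 2 ^ p)) →
      S.Vp (2 ^ n) ≤ ENNReal.ofReal (8 * (1 + K) * Real.exp C1 * ((n : ℝ) + 1) ^ (c + 1)) := by
    intro j hj h
    refine h.trans ?_
    have e1 : (1 + ENNReal.ofReal (C1 / n)) = ENNReal.ofReal (1 + C1 / n) := by
      rw [ENNReal.ofReal_add (by norm_num) (by positivity), ENNReal.ofReal_one]
    have e2 : (j : ℝ≥0∞) = ENNReal.ofReal (j : ℝ) := (ENNReal.ofReal_natCast j).symm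
    rw [e1, e2, ← ENNReal.ofReal_pow (by positivity), ← ENNReal.ofReal_mul (by positivity),
      ← ENNReal.ofReal_add (by positivity) (by positivity), ← ENNReal.ofReal_mul (by positivity)]
    refine ENNReal.ofReal_le_ofReal ?_
    have hjr : (j : ℝ) ≤ n := by exact_mod_cast hj
    have b1 : (1 + C1 / n) ^ j ≤ Real.exp C1 := by
      have h1 : 1 + C1 / n ≤ Real.exp (C1 / n) := by
        have := Real.add_one_le_exp (C1 / n); linarith
      calc (1 + C1 / n) ^ j ≤ Real.exp (C1 / n) ^ j := by gcongr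
        _ = Real.exp (j * (C1 / n)) := by rw [← Real.exp_nat_mul]
        _ ≤ Real.exp C1 := by
            apply Real.exp_le_exp.2
            calc (j : ℝ) * (C1 / n) ≤ n * (C1 / n) := by gcongr
              _ = C1 := by field_simp
    have hn1c : (n : ℝ) ^ c ≤ ((n : ℝ) + 1) ^ c := Real.rpow_le_rpow hnn.le (by linarith) hc0.le
    have b2 : (4 * 2 ^ p + (j : ℝ) * (4 * K * 2 ^ p)) ≤ 8 * (1 + K) * ((n : ℝ) + 1) ^ (c + 1) := by
      have hK : (0 : ℝ) ≤ K := Nat.cast_nonneg K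
      calc (4 * 2 ^ p + (j : ℝ) * (4 * K * 2 ^ p)) = (4 + 4 * K * j) * 2 ^ p := by ring
        _ ≤ (4 + 4 * K * n) * (2 * (n : ℝ) ^ c) := by gcongr
        _ ≤ (4 * (1 + K) * (n + 1)) * (2 * ((n : ℝ) + 1) ^ c) := by
            gcongr
            nlinarith
        _ = 8 * (1 + K) * (((n : ℝ) + 1) ^ c * (n + 1)) := by ring
        _ = 8 * (1 + K) * ((n : ℝ) + 1) ^ (c + 1) := by
            rw [Real.rpow_add (by linarith), Real.rpow_one]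
    calc (1 + C1 / n) ^ j * (4 * 2 ^ p + (j : ℝ) * (4 * K * 2 ^ p))
        ≤ Real.exp C1 * (8 * (1 + K) * ((n : ℝ) + 1) ^ (c + 1)) := by gcongr
      _ = 8 * (1 + K) * Real.exp C1 * ((n : ℝ) + 1) ^ (c + 1) := by ring
  rcases le_total n p with hnp | hpn
  · refine hfin 0 (Nat.zero_le _) ?_
    simpa using hcrude n p hnp
  -- the recursion
  have hrec : ∀ j : ℕ, S.Vp (2 ^ (p + (j + 1))) ≤ (1 + ENNReal.ofReal (C1 / n)) * S.Vp (2 ^ (p + j)) +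
      ENNReal.ofReal (4 * K * 2 ^ p) := by
    intro j
    have h1 := recp_le (K := K) (κ := κ) hG hR (2 ^ j) (2 ^ (p + j)) Nat.one_le_two_pow Nat.one_le_two_pow
    rw [show 2 * 2 ^ (p + j) = 2 ^ (p + (j + 1)) by rw [← add_assoc, pow_succ]; ring] at h1
    have h2 : (4 * K * ((2 ^ (p + j) : ℕ) : ℝ≥0∞) / ((2 ^ j : ℕ) : ℝ≥0∞)) = ENNReal.ofReal (4 * K * 2 ^ p) := by
      rw [ENNReal.ofReal_mul (by positivity), ENNReal.ofReal_mul (by norm_num), ENNReal.ofReal_pow (by norm_num),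
        ENNReal.ofReal_natCast]
      have e4 : ENNReal.ofReal 4 = 4 := by simp
      have e22 : ENNReal.ofReal 2 = 2 := by simp
      rw [e4, e22]
      push_cast
      rw [pow_add, ← mul_assoc, ENNReal.mul_div_cancel_right (by positivity) (ENNReal.pow_ne_top (by norm_num))]
    have h3 : S.U (2 ^ j) / S.U (2 ^ (p + j)) ≤ (n : ℝ≥0∞)⁻¹ := by
      rw [add_comm p j]
      exact it_div hR hb j p n hn hp
    have h4 : 2 * (κ : ℝ≥0∞) * (1 + 2 * K) * (n : ℝ≥0∞)⁻¹ = ENNReal.ofReal (C1 / n) := by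
      rw [div_eq_mul_inv, ENNReal.ofReal_mul hC1n, ENNReal.ofReal_inv_of_pos hnn, ENNReal.ofReal_natCast, hC1,
        ENNReal.ofReal_mul (by positivity), ENNReal.ofReal_mul (by norm_num),
        ENNReal.ofReal_add (by norm_num) (by positivity), ENNReal.ofReal_mul (by norm_num)]
      simp
    calc S.Vp (2 ^ (p + (j + 1))) ≤ _ := h1
      _ ≤ S.Vp (2 ^ (p + j)) + ENNReal.ofReal (4 * K * 2 ^ p) +
          2 * κ * (1 + 2 * K) * (n : ℝ≥0∞)⁻¹ * S.Vp (2 ^ (p + j)) := by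
            rw [h2]
            gcongr
      _ = (1 + ENNReal.ofReal (C1 / n)) * S.Vp (2 ^ (p + j)) + ENNReal.ofReal (4 * K * 2 ^ p) := by
            rw [h4]
            ring
  have hit := it_iter (fun j => S.Vp (2 ^ (p + j))) (ENNReal.ofReal (C1 / n)) (ENNReal.ofReal (4 * K * 2 ^ p))
    (ENNReal.ofReal (4 * 2 ^ p)) (hcrude p p le_rfl) hrec (n - p)
  refine hfin (n - p) (Nat.sub_le _ _) ?_
  simp only [show p + (n - p) = n by omega] at hit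
  exact hit

end Sys

end Pool.Agent.HEP
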