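import Pool.Agent.PLF.Pre

/-!
Project PLF, module Low: THE LOWER PAIR. Upper pair: long leg `L = x ++ c :: x'`, short leg `s' ++ e :: s''` of height `q`, `L` in first passage over `q + d σ`. Threshold `j`
(`h x ≤ j < h x + ht c`, `h s' ≤ j < h s' + ht e`; so `j < q`). Then the leg which has the HIGHER last renewal `≤ j` is the short leg of a pair `gp`, and the long leg is the
other one up to its first renewal `> j`.

PAPER PROOF (`q = h (s' ++ e :: s'') ≥ h s' + ht e > j`; `t` is an arbitrary prefix of the new short leg; heights of prefixes are monotone).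
`low_t`, upper `σ = true`: `L` = leg 1, `Av L (s' ++ e :: s'')`, `FP (q + 1) L`, so `q + 1 ≤ h L`.
 (a) `h x ≤ h s'`: new long leg `x ++ [c]` (leg 1), short `s'` (leg 2). `av`: `Av_pre`. Height: `h s' ≤ j ≤ h (x ++ [c]) - 1`. `os true 1 (x ++ [c]) t`, `s' = t ++ t'`: if `h (x ++ [c]) ≤ q`, `pl1` with `l = x ++ [c]`, `s = t`, `s' = t' ++ e :: s''`
 (`Av (x ++ [c]) (t ++ ..)` by `Av_pre`; `h t + 1 ≤ j + 1 ≤ h (x ++ [c])`). If `h (x ++ [c]) ≥ q + 1`: then `x' = []` (otherwise `x ++ [c]` is a proper prefix of `L`, so its height is `< q + 1` by `FP`), `L = x ++ [c]`, and the third clause of `gp true L (t ++ ..)` gives it.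
 (b) `h s' < h x`: new long leg `s' ++ [e]` (leg 2), short `x` (leg 1): `gp false (s' ++ [e]) x`. `av false l s = Av s l`: `Av x (s' ++ [e])` by `Av_pre`. Height: `h x ≤ j < h (s' ++ [e])`, `d false = 0`. `os false 1 (s' ++ [e]) t`, `x = t ++ t'`: `pl2` with `l = s' ++ [e]`, `s = t`,
 `s' = t' ++ c :: x'`: `Av (t ++ ..) l` where `t ++ .. = L`; `h l ≤ q < h L`; `h t ≤ j ≤ h l`.
`low_f`, upper `σ = false`: `L` = leg 2, `Av (s' ++ e :: s'') L`, `FP q L`, so `q ≤ h L`.
 (a) `h x < h s'`: new long leg `x ++ [c]` (leg 2), short `s'` (leg 1), `gp false`: `os false 1 (x ++ [c]) t`, `s' = t ++ t'`: if `h (x ++ [c]) < q`: `pl2` with `l = x ++ [c]`, `s = t`, `s' = t' ++ e :: s''`. Otherwise `x' = []` (`FP q L`), third clause.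
 (b) `h s' ≤ h x`: new long leg `s' ++ [e]` (leg 1), short `x` (leg 2), `gp true`: height `h x ≤ j ≤ h (s' ++ [e]) - 1`; `os true 1 (s' ++ [e]) t`, `x = t ++ t'`: `pl1` with `l = s' ++ [e]`, `s = t`, `s' = t' ++ c :: x'`: `Av l (t ++ ..)`, `h l ≤ q ≤ h L`, `h t + 1 ≤ h l`.
`low_fp`: the new long leg is in first passage over (height of the new short leg) + `d τ` (`FP_snoc`) and has height `> j`.
-/

namespace Pool.Agent.HEP

open scoped ENNReal
open Finset

namespace Sys

variable {S : Sys}

private lemma low_snoc (x : List S.B) (c : S.B) : S.h (x ++ [c]) = S.h x + S.ht c := by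
  rw [S.h_append, S.h_cons, S.h_nil, add_zero]

private lemma low_reassoc {β : Type} (x x' : List β) (c : β) : x ++ c :: x' = (x ++ [c]) ++ x' := by
  rw [List.append_assoc, List.singleton_append]

theorem low_t {K : ℕ} (hG : S.Gyp K) {j : ℕ} {x x' s' s'' : List S.B} {c e : S.B}
    (h : S.gp true (x ++ c :: x') (s' ++ e :: s''))
    (hF : S.FP (S.h (s' ++ e :: s'') + 1) (x ++ c :: x')) (h1 : S.h x ≤ j) (h2 : j < S.h x + S.ht c)
    (h3 : S.h s' ≤ j) (h4 : j < S.h s' + S.ht e) :
    (S.h x ≤ S.h s' ∧ S.gp true (x ++ [c]) s') ∨ (S.h s' < S.h x ∧ S.gp false (s' ++ [e]) x) := by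
  obtain ⟨hav, hh, hos⟩ := h
  obtain ⟨hF1, hF2⟩ := hF
  have hs : S.h (s' ++ e :: s'') = S.h s' + S.ht e + S.h s'' := by
    rw [S.h_append, S.h_cons, add_assoc]
  have hL : S.h (x ++ c :: x') = S.h x + S.ht c + S.h x' := by
    rw [S.h_append, S.h_cons, add_assoc]
  rw [S.av_true] at hav
  rcases le_or_gt (S.h x) (S.h s') with hc | hc
  · refine Or.inl ⟨hc, ?_, ?_, ?_⟩
    · rw [S.av_true]
      rw [low_reassoc x x' c] at hav
      exact S.Av_pre _ _ _ _ hav
    · rw [low_snoc, d_true]
      omega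
    · intro t r ht
      have hts : S.h s' = S.h t + S.h r := by rw [ht, S.h_append]
      rcases le_or_gt (S.h (x ++ [c])) (S.h (s' ++ e :: s'')) with h5 | h5
      · have e1 : s' ++ e :: s'' = t ++ (r ++ e :: s'') := by rw [ht, List.append_assoc]
        refine hG.pl1 (x ++ [c]) t (r ++ e :: s'') ?_ ?_ ?_
        · rw [low_reassoc x x' c, e1] at hav
          have hav' : S.Av ((x ++ [c]) ++ x') ((t ++ (r ++ e :: s'')) ++ []) := by
            rw [List.append_nil]; exact hav
          exact S.Av_pre _ _ _ _ hav'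
        · rw [← e1]; exact h5
        · rw [low_snoc]; omega
      · have hx' : x' = [] := by
          cases x' with
          | nil => rfl
          | cons c' x'' =>
            have := hF2 (x ++ [c]) c' x'' (low_reassoc x (c' :: x'') c)
            omega
        subst hx'
        exact hos t (r ++ e :: s'') (by rw [ht, List.append_assoc])
  · refine Or.inr ⟨hc, ?_, ?_, ?_⟩
    · rw [S.av_false]
      rw [low_reassoc s' s'' e] at hav
      exact S.Av_pre _ _ _ _ hav
    · rw [low_snoc, d_false]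
      omega
    · intro t r ht
      have hts : S.h x = S.h t + S.h r := by rw [ht, S.h_append]
      have e1 : x ++ c :: x' = t ++ (r ++ c :: x') := by rw [ht, List.append_assoc]
      refine hG.pl2 (s' ++ [e]) t (r ++ c :: x') ?_ ?_ ?_
      · rw [low_reassoc s' s'' e, e1] at hav
        have hav' : S.Av ((t ++ (r ++ c :: x')) ++ []) ((s' ++ [e]) ++ s'') := by
          rw [List.append_nil]; exact hav
        exact S.Av_pre _ _ _ _ hav'
      · rw [← e1, low_snoc]; omega
      · rw [low_snoc]; omega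

theorem low_f {K : ℕ} (hG : S.Gyp K) {j : ℕ} {x x' s' s'' : List S.B} {c e : S.B}
    (h : S.gp false (x ++ c :: x') (s' ++ e :: s''))
    (hF : S.FP (S.h (s' ++ e :: s'')) (x ++ c :: x')) (h1 : S.h x ≤ j) (h2 : j < S.h x + S.ht c)
    (h3 : S.h s' ≤ j) (h4 : j < S.h s' + S.ht e) :
    (S.h x < S.h s' ∧ S.gp false (x ++ [c]) s') ∨ (S.h s' ≤ S.h x ∧ S.gp true (s' ++ [e]) x) := by
  obtain ⟨hav, hh, hos⟩ := h
  obtain ⟨hF1, hF2⟩ := hF
  have hs : S.h (s' ++ e :: s'') = S.h s' + S.ht e + S.h s'' := by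
    rw [S.h_append, S.h_cons, add_assoc]
  have hL : S.h (x ++ c :: x') = S.h x + S.ht c + S.h x' := by
    rw [S.h_append, S.h_cons, add_assoc]
  rw [S.av_false] at hav
  rcases lt_or_ge (S.h x) (S.h s') with hc | hc
  · refine Or.inl ⟨hc, ?_, ?_, ?_⟩
    · rw [S.av_false]
      rw [low_reassoc x x' c] at hav
      exact S.Av_pre _ _ _ _ hav
    · rw [low_snoc, d_false]
      omega
    · intro t r ht
      have hts : S.h s' = S.h t + S.h r := by rw [ht, S.h_append]
      rcases lt_or_ge (S.h (x ++ [c])) (S.h (s' ++ e :: s'')) with h5 | h5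
      · have e1 : s' ++ e :: s'' = t ++ (r ++ e :: s'') := by rw [ht, List.append_assoc]
        refine hG.pl2 (x ++ [c]) t (r ++ e :: s'') ?_ ?_ ?_
        · rw [low_reassoc x x' c, e1] at hav
          have hav' : S.Av ((t ++ (r ++ e :: s'')) ++ []) ((x ++ [c]) ++ x') := by
            rw [List.append_nil]; exact hav
          exact S.Av_pre _ _ _ _ hav'
        · rw [← e1]; exact h5
        · rw [low_snoc]; omega
      · have hx' : x' = [] := by
          cases x' with
          | nil => rfl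
          | cons c' x'' =>
            have := hF2 (x ++ [c]) c' x'' (low_reassoc x (c' :: x'') c)
            omega
        subst hx'
        exact hos t (r ++ e :: s'') (by rw [ht, List.append_assoc])
  · refine Or.inr ⟨hc, ?_, ?_, ?_⟩
    · rw [S.av_true]
      rw [low_reassoc s' s'' e] at hav
      exact S.Av_pre _ _ _ _ hav
    · rw [low_snoc, d_true]
      omega
    · intro t r ht
      have hts : S.h x = S.h t + S.h r := by rw [ht, S.h_append]
      have e1 : x ++ c :: x' = t ++ (r ++ c :: x') := by rw [ht, List.append_assoc]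
      refine hG.pl1 (s' ++ [e]) t (r ++ c :: x') ?_ ?_ ?_
      · rw [low_reassoc s' s'' e, e1] at hav
        have hav' : S.Av ((s' ++ [e]) ++ s'') ((t ++ (r ++ c :: x')) ++ []) := by
          rw [List.append_nil]; exact hav
        exact S.Av_pre _ _ _ _ hav'
      · rw [← e1, low_snoc]; omega
      · rw [low_snoc]; omega

theorem low_fp {τ : Bool} {j : ℕ} {x s : List S.B} {c : S.B} (h1 : S.h x < S.h s + d τ)
    (h2 : j < S.h x + S.ht c) (h3 : S.h s ≤ j) : S.FP (S.h s + d τ) (x ++ [c]) ∧ j < S.h (x ++ [c]) := by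
  have h4 := d_le τ
  refine ⟨S.FP_snoc.2 ⟨h1, by omega⟩, ?_⟩
  rw [low_snoc]
  exact h2

end Sys

end Pool.Agent.HEP
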