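import Pool.Agent.PLF.Good
import Pool.Agent.PLF.Bad

/-!
Project PLF, module Rec: THE RECURSION for `Vp`.

PAPER PROOF.
* `m2_zero_le`: `mt true 0 0 ≤ ∑' c, wt c = 1` (`FP 1 l` gives `l = [c]`), `mt false 0 0 = 0` (`FP 0 l` gives `l = []`, but `0 < h l`). `mt_le_one`: `mt σ q N ≤ (∑' l, ind (FP (q + d σ) l) * w l) * b q ≤ 1`. `mt_anti`: `ind_mono`.
* `split_le`: for `q ∈ Ioc m M` (so `q ≥ 1`) `gp σ l s` implies `good σ g l s` or `¬ os σ g l s` (`good σ g` = `av`, height, `os σ g`). So `∑ q ∈ Ioc m M, mt σ q 0 ≤ (M - m) * (2 K / g) + bm σ g m M`: first part `gap_le`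
  (divide by `g`), second part: exchange the finite sum and the tsum, `∑ q ∈ Ioc m M, ind (.. ∧ h s = q) ≤ ind (.. ∧ m < h s ∧ h s ≤ M)`.
* `sum_LP_le`: `∑_(j ≤ m) LP j = ∑_(r ≤ m) ∑_(r ≤ j ≤ m) m2 r j * Lam (j - r) ≤ ∑_(r ≤ m) m2 r 0 * ∑_(k ≤ m) Lam k` (`mt_anti`), and `b m * ∑_(k ≤ m) Lam k ≤ ∑_(k ≤ m) b (m - k) * Lam k = 1` (`anti`, `ren`, `Finset.sum_range_reflect`).
* `recp_le`: by `bad_le` for all `j ≤ m`, summed: `(m + 1) * bm σ g m (2 m) ≤ (U g + 2 K g b g) * ∑_(j ≤ m) LP j`, so `b m * (m + 1) * bm ≤ (U g + 2 K g b g) * Vp m`, `g * b g ≤ U g` (`b_mul`), `U m ≤ κ m b m` (`Reg`): `U m * bm ≤ κ * (1 + 2 K) * U g * Vp m`; divide by `U m` (`≠ 0, ⊤`).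
  `Vp (2 m) = Vp m + ∑ q ∈ Ioc m (2 m), m2 q 0`.
-/

namespace Pool.Agent.HEP

open scoped ENNReal
open Finset

namespace Sys

variable {S : Sys}

private theorem Rec_prod (P Q : List S.B → Prop) :
    ∑' l, ∑' s, ind (P l ∧ Q s) * (S.w l * S.w s) =
      (∑' l, ind (P l) * S.w l) * ∑' s, ind (Q s) * S.w s := by
  rw [← ENNReal.tsum_mul_right]
  refine tsum_congr fun l => ?_
  rw [← ENNReal.tsum_mul_left]
  refine tsum_congr fun s => ?_
  rw [ind_and]
  ring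

theorem mt_le_one (σ : Bool) (q N : ℕ) : S.mt σ q N ≤ 1 := by
  unfold mt
  calc ∑' l, ∑' s, ind (S.gp σ l s ∧ S.FP (q + d σ) l ∧ S.h s = q ∧ N < S.h l) * (S.w l * S.w s)
      ≤ ∑' l, ∑' s, ind (S.FP (q + d σ) l ∧ S.h s = q) * (S.w l * S.w s) :=
        ENNReal.tsum_le_tsum fun l => ENNReal.tsum_le_tsum fun s =>
          mul_le_mul_left (ind_mono fun h => ⟨h.2.1, h.2.2.1⟩) _
    _ = (∑' l, ind (S.FP (q + d σ) l) * S.w l) * ∑' s, ind (S.h s = q) * S.w s :=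
        Rec_prod _ _
    _ = S.b q := by rw [S.tsum_FP, one_mul]; rfl
    _ ≤ 1 := S.b_le_one q

theorem mt_anti (σ : Bool) (q : ℕ) : Antitone (S.mt σ q) := by
  intro N N' hN
  unfold mt
  exact ENNReal.tsum_le_tsum fun l => ENNReal.tsum_le_tsum fun s =>
    mul_le_mul_left (ind_mono fun h => ⟨h.1, h.2.1, h.2.2.1, lt_of_le_of_lt hN h.2.2.2⟩) _

private theorem Rec_sum_ind (s : Finset ℕ) (P : Prop) (h : ℕ) :
    ∑ q ∈ s, ind (P ∧ h = q) = ind (P ∧ h ∈ s) := by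
  by_cases hs : h ∈ s
  · rw [Finset.sum_eq_single h]
    · exact ind_congr ⟨fun h' => ⟨h'.1, hs⟩, fun h' => ⟨h'.1, rfl⟩⟩
    · intro q _ hq
      exact ind_false fun h' => hq h'.2.symm
    · intro h'
      exact absurd hs h'
  · rw [ind_false fun h' => hs h'.2]
    refine Finset.sum_eq_zero fun q hq => ind_false fun h' => hs ?_
    rw [h'.2]
    exact hq

theorem split_le {K : ℕ} (hG : S.Gyp K) (hb : ∀ N, S.b N ≠ 0) (σ : Bool) (g m M : ℕ) (hg : 1 ≤ g) :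
    ∑ q ∈ Ioc m M, S.mt σ q 0 ≤ ((M - m : ℕ) : ℝ≥0∞) * (2 * K / g) + S.bm σ g m M := by
  have hg0 : (g : ℝ≥0∞) ≠ 0 := by
    have : g ≠ 0 := by omega
    exact_mod_cast this
  have h1 : ∀ q ∈ Ioc m M, S.mt σ q 0 ≤ 2 * K / g +
      ∑' l, ∑' s, ind ((S.gp σ l s ∧ ¬ S.os σ g l s ∧ S.FP (S.h s + d σ) l) ∧ S.h s = q) *
        (S.w l * S.w s) := by
    intro q hq
    have hq1 : 1 ≤ q := by
      have := (Finset.mem_Ioc.1 hq).1
      omega
    have h2 := gap_le hG hb σ g q hg hq1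
    have h3 : ∑' l, ∑' s, ind (S.good σ g l s ∧ S.FP (q + d σ) l ∧ S.h s = q) * (S.w l * S.w s) ≤
        2 * K / g := by
      rw [ENNReal.le_div_iff_mul_le (Or.inl hg0) (Or.inl (ENNReal.natCast_ne_top g)), mul_comm]
      exact h2
    refine le_trans ?_ (add_le_add h3 le_rfl)
    rw [← ENNReal.tsum_add]
    refine ENNReal.tsum_le_tsum fun l => ?_
    rw [← ENNReal.tsum_add]
    refine ENNReal.tsum_le_tsum fun s => ?_
    rw [← add_mul]
    refine mul_le_mul_left ?_ _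
    refine le_trans ?_ (ind_or_le _ _)
    refine ind_mono ?_
    rintro ⟨e1, e2, e3, -⟩
    by_cases h4 : S.os σ g l s
    · exact Or.inl ⟨⟨e1.1, e1.2.1, h4⟩, e2, e3⟩
    · refine Or.inr ⟨⟨e1, h4, ?_⟩, e3⟩
      rw [e3]
      exact e2
  refine (Finset.sum_le_sum h1).trans ?_
  rw [Finset.sum_add_distrib, Finset.sum_const, Nat.card_Ioc, nsmul_eq_mul]
  refine add_le_add le_rfl ?_
  rw [← Summable.tsum_finsetSum fun _ _ => ENNReal.summable]
  have h5 : ∀ l : List S.B, ∑ q ∈ Ioc m M, ∑' s, ind ((S.gp σ l s ∧ ¬ S.os σ g l s ∧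
      S.FP (S.h s + d σ) l) ∧ S.h s = q) * (S.w l * S.w s) =
      ∑' s, ind (S.gp σ l s ∧ ¬ S.os σ g l s ∧ S.FP (S.h s + d σ) l ∧ m < S.h s ∧ S.h s ≤ M) *
        (S.w l * S.w s) := by
    intro l
    rw [← Summable.tsum_finsetSum fun _ _ => ENNReal.summable]
    refine tsum_congr fun s => ?_
    rw [← Finset.sum_mul, Rec_sum_ind]
    congr 1
    refine ind_congr ?_
    rw [Finset.mem_Ioc]
    tauto
  rw [tsum_congr h5, ENNReal.tsum_comm]
  rfl

theorem sum_LP_le (hb : Antitone S.b) (m : ℕ) : S.b m * ∑ j ∈ range (m + 1), S.LP j ≤ S.Vp m := by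
  have h1 : S.b m * ∑ k ∈ range (m + 1), S.Lam k ≤ 1 := by
    rw [← S.ren m, ← Finset.sum_range_reflect, Finset.mul_sum]
    refine Finset.sum_le_sum fun k hk => ?_
    rw [Finset.mem_range] at hk
    have e : m + 1 - 1 - k = m - k := by omega
    rw [e]
    exact mul_le_mul_left (hb (by omega)) _
  have h2 : ∑ j ∈ range (m + 1), S.LP j ≤ S.Vp m * ∑ k ∈ range (m + 1), S.Lam k := by
    calc ∑ j ∈ range (m + 1), S.LP j
        ≤ ∑ j ∈ range (m + 1), ∑ r ∈ range (j + 1), S.m2 r 0 * S.Lam (j - r) := by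
          refine Finset.sum_le_sum fun j _ => Finset.sum_le_sum fun r _ => ?_
          exact mul_le_mul_left (add_le_add (mt_anti true r (Nat.zero_le j))
            (mt_anti false r (Nat.zero_le j))) _
      _ = ∑ r ∈ range (m + 1), ∑ j ∈ Ico r (m + 1), S.m2 r 0 * S.Lam (j - r) := by
          refine Finset.sum_comm' fun j r => ?_
          simp only [Finset.mem_range, Finset.mem_Ico]
          omega
      _ ≤ ∑ r ∈ range (m + 1), S.m2 r 0 * ∑ k ∈ range (m + 1), S.Lam k := by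
          refine Finset.sum_le_sum fun r _ => ?_
          rw [← Finset.mul_sum, Finset.sum_Ico_eq_sum_range]
          refine mul_le_mul_right ?_ _
          have e : ∀ k ∈ range (m + 1 - r), S.Lam (r + k - r) = S.Lam k := fun k _ => by
            rw [Nat.add_sub_cancel_left]
          rw [Finset.sum_congr rfl e]
          exact Finset.sum_le_sum_of_subset (Finset.range_subset_range.2 (by omega))
      _ = S.Vp m * ∑ k ∈ range (m + 1), S.Lam k := by
          rw [← Finset.sum_mul]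
          rfl
  calc S.b m * ∑ j ∈ range (m + 1), S.LP j
      ≤ S.b m * (S.Vp m * ∑ k ∈ range (m + 1), S.Lam k) := mul_le_mul_right h2 _
    _ = (S.b m * ∑ k ∈ range (m + 1), S.Lam k) * S.Vp m := by ring
    _ ≤ 1 * S.Vp m := mul_le_mul_left h1 _
    _ = S.Vp m := one_mul _

private theorem Rec_U0 (N : ℕ) : S.U N ≠ 0 := by
  have h1 : (1 : ℝ≥0∞) ≤ S.U N := by
    rw [← S.b_zero]
    unfold Alph.U
    exact Finset.single_le_sum (f := S.b) (fun _ _ => bot_le)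
      (Finset.mem_range.2 (Nat.succ_pos N))
  exact (lt_of_lt_of_le one_pos h1).ne'

private theorem Rec_Ut (N : ℕ) : S.U N ≠ ⊤ := by
  unfold Alph.U
  exact (ENNReal.sum_lt_top.2 fun k _ => (S.b_ne_top k).lt_top).ne

private theorem Rec_bm {K κ : ℕ} (hG : S.Gyp K) (hR : S.Reg κ) (σ : Bool) (g m : ℕ) (hm : 1 ≤ m) :
    S.bm σ g m (2 * m) ≤ κ * (1 + 2 * K) * (S.U g / S.U m) * S.Vp m := by
  have hb := hG.anti
  have h1 : (g : ℝ≥0∞) * S.b g ≤ S.U g := by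
    refine le_trans ?_ (Alph.b_mul hb g)
    exact mul_le_mul_left le_self_add _
  have h2 : ((m + 1 : ℕ) : ℝ≥0∞) * S.bm σ g m (2 * m) ≤
      ((1 + 2 * K) * S.U g) * ∑ j ∈ range (m + 1), S.LP j := by
    calc ((m + 1 : ℕ) : ℝ≥0∞) * S.bm σ g m (2 * m)
        = ∑ _j ∈ range (m + 1), S.bm σ g m (2 * m) := by
          rw [Finset.sum_const, Finset.card_range, nsmul_eq_mul]
      _ ≤ ∑ j ∈ range (m + 1), (S.U g + 2 * K * g * S.b g) * S.LP j := by
          refine Finset.sum_le_sum fun j hj => ?_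
          rw [Finset.mem_range] at hj
          exact bad_le hG σ g m (2 * m) j (by omega)
      _ = (S.U g + 2 * K * g * S.b g) * ∑ j ∈ range (m + 1), S.LP j := by
          rw [Finset.mul_sum]
      _ ≤ ((1 + 2 * K) * S.U g) * ∑ j ∈ range (m + 1), S.LP j := by
          refine mul_le_mul_left ?_ _
          calc S.U g + 2 * K * g * S.b g = S.U g + 2 * K * (g * S.b g) := by ring
            _ ≤ S.U g + 2 * K * S.U g := add_le_add le_rfl (mul_le_mul_right h1 _)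
            _ = (1 + 2 * K) * S.U g := by ring
  have h3 : S.bm σ g m (2 * m) * S.U m ≤ κ * (1 + 2 * K) * S.U g * S.Vp m := by
    calc S.bm σ g m (2 * m) * S.U m ≤ S.bm σ g m (2 * m) * (κ * m * S.b m) :=
          mul_le_mul_right (hR m hm) _
      _ ≤ S.bm σ g m (2 * m) * (κ * ((m + 1 : ℕ) : ℝ≥0∞) * S.b m) := by
          refine mul_le_mul_right (mul_le_mul_left (mul_le_mul_right ?_ _) _) _
          exact_mod_cast Nat.le_succ m
      _ = κ * (S.b m * (((m + 1 : ℕ) : ℝ≥0∞) * S.bm σ g m (2 * m))) := by ring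
      _ ≤ κ * (S.b m * (((1 + 2 * K) * S.U g) * ∑ j ∈ range (m + 1), S.LP j)) :=
          mul_le_mul_right (mul_le_mul_right h2 _) _
      _ = κ * (1 + 2 * K) * S.U g * (S.b m * ∑ j ∈ range (m + 1), S.LP j) := by ring
      _ ≤ κ * (1 + 2 * K) * S.U g * S.Vp m := mul_le_mul_right (sum_LP_le hb m) _
  have h4 : S.bm σ g m (2 * m) ≤ (κ * (1 + 2 * K) * S.U g * S.Vp m) / S.U m := by
    rw [ENNReal.le_div_iff_mul_le (Or.inl (Rec_U0 m)) (Or.inl (Rec_Ut m))]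
    exact h3
  refine h4.trans_eq ?_
  rw [div_eq_mul_inv, div_eq_mul_inv]
  ring

/-- **The recursion.** -/
theorem recp_le {K κ : ℕ} (hG : S.Gyp K) (hR : S.Reg κ) (g m : ℕ) (hg : 1 ≤ g) (hm : 1 ≤ m) :
    S.Vp (2 * m) ≤ S.Vp m + 4 * K * m / g + 2 * κ * (1 + 2 * K) * (S.U g / S.U m) * S.Vp m := by
  have h1 : S.Vp (2 * m) = S.Vp m + ∑ q ∈ Ioc m (2 * m), S.m2 q 0 := by
    unfold Vp
    rw [Finset.range_eq_Ico, Finset.range_eq_Ico,
      ← Finset.sum_Ico_consecutive _ (Nat.zero_le (m + 1)) (by omega : m + 1 ≤ 2 * m + 1)]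
    congr 1
    refine Finset.sum_congr (Finset.ext fun k => ?_) fun _ _ => rfl
    simp only [Finset.mem_Ico, Finset.mem_Ioc]
    omega
  have hb0 := fun N => Reg.b_ne_zero hR N
  have h2 : ∀ σ : Bool, ∑ q ∈ Ioc m (2 * m), S.mt σ q 0 ≤
      (m : ℝ≥0∞) * (2 * K / g) + κ * (1 + 2 * K) * (S.U g / S.U m) * S.Vp m := by
    intro σ
    have h3 := split_le hG hb0 σ g m (2 * m) hg
    have e : 2 * m - m = m := by omega
    rw [e] at h3
    exact h3.trans (add_le_add le_rfl (Rec_bm hG hR σ g m hm))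
  have h4 : ∑ q ∈ Ioc m (2 * m), S.m2 q 0 ≤
      ((m : ℝ≥0∞) * (2 * K / g) + κ * (1 + 2 * K) * (S.U g / S.U m) * S.Vp m) +
        ((m : ℝ≥0∞) * (2 * K / g) + κ * (1 + 2 * K) * (S.U g / S.U m) * S.Vp m) := by
    unfold m2
    rw [Finset.sum_add_distrib]
    exact add_le_add (h2 true) (h2 false)
  rw [h1, add_assoc]
  refine add_le_add le_rfl (h4.trans_eq ?_)
  rw [div_eq_mul_inv, div_eq_mul_inv, div_eq_mul_inv]
  ring

end Sys

end Pool.Agent.HEP
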