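import Pool.Agent.PLF.Pre

/-!
Project PLF, module Win: THE WINDOW LEMMA. The long leg is a fixed word `X` (at the level `q` one sees its part `pre (q + d σ) X`), the beginning `y ≠ []` of the
short leg is fixed; then the mass of the continuations `r` such that the pair at the level `h (y ++ r)` has gap `< g` (and is one-sided) is at most `U g + 2 K g b g`.

PAPER PROOF. Put `q r = h (y ++ r) = h y + h r`, `P r = pre (q r + d σ) X` (depends only on `h r`!), `HI M = hi σ (pre (h y + M + d σ) X) (h y + M)`, `LO M = lo σ (..) (..)`.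
`y ++ r ≠ []`, so `os σ G (P r) (y ++ r)` means `HI (h r) + G ≤ ps σ (y ++ r)` or `ps σ (y ++ r) + G ≤ LO (h r)`, and `ps σ (y ++ r) = ps σ y + x r` (`ps_append`).
If `os σ 1` holds and `os σ g` does not: `x r = HI (h r) + i - ps σ y` or `x r = LO (h r) - i - ps σ y` for some `i` with `1 ≤ i < g`.
So the indicator is at most `ind (h r ≤ g) + ∑ i ∈ range g, (ind (g ≤ h r ∧ x r = D i (h r)) + ind (g ≤ h r ∧ x r = D' i (h r)))`, `D i M = HI M + i - ps σ y`, `D' i M = LO M - i - ps σ y`.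
Sum with the weight `w r`: the first term gives `U g` (`tsum_le` of HEP/RnWord). Every other term is at most `K * b g` by `Gyp.ac` with `j = g` (exchange: `∑' M, ∑' l, ind (g ≤ M ∧ h l = M ∧ x l = D M) * w l =
∑' l, ind (g ≤ h l ∧ x l = D (h l)) * w l`: `ENNReal.tsum_comm`, `tsum_eq_single (h l)`). Total `U g + 2 * K * g * b g`.
-/

namespace Pool.Agent.HEP

open scoped ENNReal
open Finset

namespace Sys

variable {S : Sys}

private theorem Win_ac {K : ℕ} (hG : S.Gyp K) (g : ℕ) (D : ℕ → ℤ) :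
    ∑' r, ind (g ≤ S.h r ∧ S.x r = D (S.h r)) * S.w r ≤ K * S.b g := by
  refine le_trans (le_of_eq ?_) (hG.ac g D)
  rw [ENNReal.tsum_comm]
  refine tsum_congr fun r => ?_
  rw [tsum_eq_single (S.h r)]
  · rw [ind_congr (show (g ≤ S.h r ∧ S.x r = D (S.h r)) ↔
      (g ≤ S.h r ∧ S.h r = S.h r ∧ S.x r = D (S.h r)) by tauto)]
  · intro M hM
    rw [ind_false (fun h => hM h.2.1.symm), zero_mul]

private theorem Win_pt (σ : Bool) (g : ℕ) (X y r : List S.B) (hy : y ≠ []) :
    ind (S.os σ 1 (S.pre (S.h (y ++ r) + d σ) X) (y ++ r) ∧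
      ¬ S.os σ g (S.pre (S.h (y ++ r) + d σ) X) (y ++ r)) ≤
      ind (S.h r ≤ g) + ∑ i ∈ range g,
        (ind (g ≤ S.h r ∧ S.x r =
            S.hi σ (S.pre (S.h y + S.h r + d σ) X) (S.h y + S.h r) + i - S.ps σ y) +
         ind (g ≤ S.h r ∧ S.x r =
            S.lo σ (S.pre (S.h y + S.h r + d σ) X) (S.h y + S.h r) - i - S.ps σ y)) := by
  by_cases h : (S.os σ 1 (S.pre (S.h (y ++ r) + d σ) X) (y ++ r) ∧
      ¬ S.os σ g (S.pre (S.h (y ++ r) + d σ) X) (y ++ r))
  · by_cases hg : S.h r ≤ g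
    · rw [ind_true h, ind_true hg]
      exact le_self_add
    · obtain ⟨h1, h2⟩ := h
      unfold os at h1 h2
      push Not at h2
      obtain ⟨h3, h4, h5⟩ := h2
      rw [S.h_append, S.ps_append hy] at h1 h4 h5
      have key : ∃ i ∈ range g, S.x r =
            S.hi σ (S.pre (S.h y + S.h r + d σ) X) (S.h y + S.h r) + (i : ℤ) - S.ps σ y ∨
          S.x r = S.lo σ (S.pre (S.h y + S.h r + d σ) X) (S.h y + S.h r) - (i : ℤ) - S.ps σ y := by
        rcases h1 with h1 | h1 | h1
        · exact absurd h1 h3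
        · refine ⟨(S.x r - (S.hi σ (S.pre (S.h y + S.h r + d σ) X) (S.h y + S.h r) -
            S.ps σ y)).toNat, ?_, Or.inl ?_⟩
          · rw [mem_range]; omega
          · push_cast at h1 ⊢
            omega
        · refine ⟨((S.lo σ (S.pre (S.h y + S.h r + d σ) X) (S.h y + S.h r) -
            S.ps σ y) - S.x r).toNat, ?_, Or.inr ?_⟩
          · rw [mem_range]; omega
          · push_cast at h1 ⊢
            omega
      obtain ⟨i, hi, hk⟩ := key
      refine le_trans ?_ le_add_self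
      refine le_trans ?_ (single_le_sum (fun _ _ => zero_le) hi)
      refine (ind_le_one _).trans ?_
      rcases hk with hk | hk
      · rw [ind_true (p := g ≤ S.h r ∧ S.x r =
            S.hi σ (S.pre (S.h y + S.h r + d σ) X) (S.h y + S.h r) + i - S.ps σ y) ⟨by omega, hk⟩]
        exact le_self_add
      · rw [ind_true (p := g ≤ S.h r ∧ S.x r =
            S.lo σ (S.pre (S.h y + S.h r + d σ) X) (S.h y + S.h r) - i - S.ps σ y) ⟨by omega, hk⟩]
        exact le_add_self
  · rw [ind_false h]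
    exact zero_le

theorem winp_le {K : ℕ} (hG : S.Gyp K) (σ : Bool) (g : ℕ) (X y : List S.B) (hy : y ≠ []) :
    ∑' r, ind (S.os σ 1 (S.pre (S.h (y ++ r) + d σ) X) (y ++ r) ∧
      ¬ S.os σ g (S.pre (S.h (y ++ r) + d σ) X) (y ++ r)) * S.w r ≤ S.U g + 2 * K * g * S.b g := by
  calc _ ≤ ∑' r, (ind (S.h r ≤ g) + ∑ i ∈ range g,
        (ind (g ≤ S.h r ∧ S.x r =
            S.hi σ (S.pre (S.h y + S.h r + d σ) X) (S.h y + S.h r) + i - S.ps σ y) +
         ind (g ≤ S.h r ∧ S.x r =
            S.lo σ (S.pre (S.h y + S.h r + d σ) X) (S.h y + S.h r) - i - S.ps σ y))) * S.w r :=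
        ENNReal.tsum_le_tsum fun r => mul_le_mul' (Win_pt σ g X y r hy) le_rfl
    _ = ∑' r, ind (S.h r ≤ g) * S.w r + ∑ i ∈ range g,
        (∑' r, ind (g ≤ S.h r ∧ S.x r =
            S.hi σ (S.pre (S.h y + S.h r + d σ) X) (S.h y + S.h r) + i - S.ps σ y) * S.w r +
         ∑' r, ind (g ≤ S.h r ∧ S.x r =
            S.lo σ (S.pre (S.h y + S.h r + d σ) X) (S.h y + S.h r) - i - S.ps σ y) * S.w r) := by
        simp_rw [← ENNReal.tsum_add]
        rw [← Summable.tsum_finsetSum (fun _ _ => ENNReal.summable), ← ENNReal.tsum_add]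
        refine tsum_congr fun r => ?_
        rw [add_mul, sum_mul]
        simp_rw [add_mul]
    _ ≤ S.U g + ∑ i ∈ range g, (K * S.b g + K * S.b g) := by
        refine add_le_add (S.tsum_le g).le (sum_le_sum fun i _ => add_le_add ?_ ?_)
        · exact Win_ac hG g (fun M => S.hi σ (S.pre (S.h y + M + d σ) X) (S.h y + M) + i - S.ps σ y)
        · exact Win_ac hG g (fun M => S.lo σ (S.pre (S.h y + M + d σ) X) (S.h y + M) - i - S.ps σ y)
    _ = _ := by
        rw [sum_const, card_range, nsmul_eq_mul]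
        ring

end Sys

end Pool.Agent.HEP
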